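import Pool.Agent.W5h35.CU.Link
import Pool.Agent.R419.CF.Low
import Pool.Agent.R419.CF.Weak

/-!
# The `L`-functions of `H³` and `H⁵` of the diagonal cubic hypersurfaces
-/

set_option autoImplicit false

namespace Pool.Agent.W5h35.CU

open Finset
open Pool.Agent.Y703.CT (WD EQ IsL Cls NoSplit Triv3)
open Pool.Agent.W97.MT (ap affCount)

/-- the Euler factor of `E_D` at `p` -/
noncomputable def ell (D : ℤ) (p : ℕ) (s : ℂ) : ℂ :=
  (1 - (ap (WD D) p : ℂ) * (p : ℂ) ^ (-s) + (p : ℂ) ^ (1 - 2 * s))⁻¹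

theorem dvd_cast {D p : ℕ} : (p : ℤ) ∣ 3 * (D : ℤ) ↔ p ∣ 3 * D := by
  rw [← Int.natCast_dvd_natCast]
  push_cast
  exact Iff.rfl

/-- the product over the primes of good reduction -/
theorem prod_good {D E : ℕ} (hDE : ∀ p : ℕ, p.Prime → (p ∣ 3 * D ↔ p ∣ 3 * E))
    {f : ℂ → ℂ} (hf : IsL (WD E) f) {s : ℂ} (hs : 3 / 2 < s.re) :
    HasProd (fun p : {p : ℕ // p.Prime ∧ ¬ p ∣ 3 * D} => ell E p.1 s) (f s) := by
  have h := hf.2 s hs
  obtain ⟨i, hi0⟩ : ∃ i : {p : ℕ // p.Prime ∧ ¬ p ∣ 3 * D} → Nat.Primes,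
      i = fun p => ⟨p.1, p.2.1⟩ := ⟨_, rfl⟩
  have hi : Function.Injective i := by
    intro p q hpq
    rw [hi0] at hpq
    exact Subtype.ext (congrArg (fun r : Nat.Primes => (r : ℕ)) hpq)
  have hdisc : ∀ p : ℕ, p.Prime → ((p : ℤ) ∣ (WD (E : ℤ)).Δ ↔ p ∣ 3 * E) := by
    intro p hp
    have hpi := Nat.prime_iff_prime_int.1 hp
    rw [Pool.Agent.Y703.CX.WD_disc, ← dvd_cast]
    constructor
    · intro h
      rcases hpi.dvd_or_dvd h with h | h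
      · have h27 : (p : ℤ) ∣ 3 ^ 3 := by
          rw [← dvd_neg]
          exact h
        exact Dvd.dvd.mul_right (hpi.dvd_of_dvd_pow h27) _
      · exact Dvd.dvd.mul_left (hpi.dvd_of_dvd_pow h) _
    · intro h
      rcases hpi.dvd_or_dvd h with h | h
      · refine Dvd.dvd.mul_right ?_ _
        have : (-27 : ℤ) = 3 * (-9) := by norm_num
        rw [this]
        exact Dvd.dvd.mul_right h _
      · exact Dvd.dvd.mul_left (dvd_pow h (by norm_num)) _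
  rw [← hi.hasProd_iff] at h
  · refine h.congr_fun ?_
    intro p
    have hb : ¬ p.1 ∣ 3 * E := fun h => p.2.2 ((hDE _ p.2.1).2 h)
    have hd : ¬ ((p.1 : ℕ) : ℤ) ∣ (WD (E : ℤ)).Δ := fun h => hb ((hdisc _ p.2.1).1 h)
    rw [hi0]
    change ell E p.1 s = (1 - (ap (WD E) p.1 : ℂ) * (p.1 : ℂ) ^ (-s) +
      (if ((p.1 : ℕ) : ℤ) ∣ (WD (E : ℤ)).Δ then 0 else (p.1 : ℂ) ^ (1 - 2 * s)))⁻¹
    rw [if_neg hd]
    rfl
  · intro P hP
    have hPp : (P : ℕ).Prime := P.2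
    have hb : (P : ℕ) ∣ 3 * D := by
      by_contra hb
      exact hP ⟨⟨P, hPp, hb⟩, by rw [hi0]; rfl⟩
    have hb' := (hDE _ hPp).1 hb
    rw [Pool.Agent.Y703.CX.ap_bad hPp (dvd_cast.2 hb'), if_pos ((hdisc _ hPp).2 hb')]
    simp

/-- the product for the hypersurface -/
theorem prod_all {D : ℕ} (h0 : D ≠ 0) (hC : CF D) {f g : ℂ → ℂ} (hf : IsL (WD D) f)
    (hg : IsL (WD (star D : ℕ)) g) (m M N : ℕ) {s : ℂ} (hs : (m : ℝ) + 3 / 2 < s.re) :
    HasProd (fun p : {p : ℕ // p.Prime ∧ ¬ p ∣ 3 * D} =>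
      ell D p.1 (s - m) ^ M * ell ((D : ℤ) ^ 2) p.1 (s - m) ^ N)
      (f (s - m) ^ M * g (s - m) ^ N) := by
  have hs' : 3 / 2 < (s - m).re := by
    rw [Complex.sub_re, Complex.natCast_re]
    linarith
  have h1 := (prod_good (D := D) (E := D) (fun _ _ => Iff.rfl) hf hs').pow M
  have hstar : ∀ p : ℕ, p.Prime → (p ∣ 3 * D ↔ p ∣ 3 * star D) := by
    intro p hp
    rw [hp.dvd_mul, hp.dvd_mul, dvd_star_iff h0 hC hp]
  have h2 := (prod_good (D := D) (E := star D) hstar hg hs').pow N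
  refine (h1.mul h2).congr_fun ?_
  intro p
  have : Fact p.1.Prime := ⟨p.2.1⟩
  have e : ell ((D : ℤ) ^ 2) p.1 (s - m) = ell ((star D : ℕ) : ℤ) p.1 (s - m) := by
    unfold ell
    rw [ap_star h0 hC fun h => p.2.2 (dvd_cast.1 h)]
  rw [e]

theorem unique_f {f g : ℂ → ℂ} (hf : Differentiable ℂ f) (hg : Differentiable ℂ g)
    {ι : Type} {F : ℂ → ι → ℂ} {σ : ℝ}
    (h1 : ∀ s : ℂ, σ < s.re → HasProd (F s) (f s))
    (h2 : ∀ s : ℂ, σ < s.re → HasProd (F s) (g s)) : f = g := by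
  have hfa : AnalyticOnNhd ℂ f Set.univ := fun z _ => hf.analyticAt z
  have hga : AnalyticOnNhd ℂ g Set.univ := fun z _ => hg.analyticAt z
  have heq : f =ᶠ[nhds ((σ + 1 : ℝ) : ℂ)] g := by
    have hopen : IsOpen {s : ℂ | σ < s.re} := isOpen_lt continuous_const Complex.continuous_re
    filter_upwards [hopen.mem_nhds (show σ < ((σ + 1 : ℝ) : ℂ).re by simp)] with s hs
    exact (h1 s hs).unique (h2 s hs)
  exact hfa.eq_of_eventuallyEq hga heq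

/-- the two elliptic curves of the class -/
theorem both {D : ℕ} (hC : Cls D) (hT : Triv3 D) :
    (∃ f, IsL (WD D) f ∧ f 1 ≠ 0) ∧ (∃ g, IsL (WD (star D : ℕ)) g ∧ g 1 ≠ 0) ∧
      Finite (EQ (WD (star D : ℕ))).toAffine.Point := by
  obtain ⟨-, f, hf, u, hu, -, h1, h2⟩ := Pool.Agent.Y703.CT.fin_all hC
  have hU := h1.2 hT
  have hN : NoSplit D := h2.1 hT
  have hC' := cls_star hC
  have hN' : NoSplit (star D) := noSplit_star hC.1.1 hC.1.2.2 hN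
  obtain ⟨-, g, hg, v, hv, -, h1', h2'⟩ := Pool.Agent.Y703.CT.fin_all hC'
  have hT' := h2'.2 hN'
  have hV := h1'.2 hT'
  exact ⟨⟨f, hf, Pool.Agent.Y703.CX.val_ne hC hT.1 hU.1 hu⟩,
    ⟨g, hg, Pool.Agent.Y703.CX.val_ne hC' hT'.1 hV.1 hv⟩, hT'.1⟩

/-- the affine rational points of `y² + D y = x³` -/
theorem fin_aff {D : ℤ} (hD : D ≠ 0) (h : Finite (EQ (WD D)).toAffine.Point) :
    {q : ℚ × ℚ | q.2 ^ 2 + (D : ℚ) * q.2 = q.1 ^ 3}.Finite := by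
  have hDQ : (D : ℚ) ≠ 0 := by exact_mod_cast hD
  have hns : ∀ x y : ℚ, y ^ 2 + (D : ℚ) * y = x ^ 3 → (EQ (WD D)).toAffine.Nonsingular x y := by
    intro x y hxy
    have he : (EQ (WD D)).toAffine.Equation x y := (Pool.Agent.Y703.CX.eqn_iff D x y).2 hxy
    refine (WeierstrassCurve.Affine.equation_iff_nonsingular_of_Δ_ne_zero
      (W := (EQ (WD D)).toAffine) ?_).1 he
    have : (EQ (WD D)).Δ = ((WD D).Δ : ℚ) := by
      rw [WeierstrassCurve.map_Δ]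
      rfl
    show (EQ (WD D)).Δ ≠ 0
    rw [this, Pool.Agent.Y703.CX.WD_disc]
    push_cast
    exact mul_ne_zero (by norm_num) (pow_ne_zero 4 hDQ)
  refine Set.finite_coe_iff.1 (Finite.of_injective
    (fun q : {q : ℚ × ℚ | q.2 ^ 2 + (D : ℚ) * q.2 = q.1 ^ 3} =>
    (WeierstrassCurve.Affine.Point.some q.1.1 q.1.2 (hns _ _ q.2) :
      (EQ (WD D)).toAffine.Point)) ?_)
  rintro ⟨⟨x, y⟩, h1⟩ ⟨⟨x', y'⟩, h2⟩ h3
  simp only [WeierstrassCurve.Affine.Point.some.injEq] at h3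
  obtain ⟨g1, g2⟩ := h3
  subst g1; subst g2; rfl

/-- the affine rational points of `y² + D² y = x³` -/
theorem fin_sq {D : ℕ} (h0 : D ≠ 0) (hC : CF D)
    (h : Finite (EQ (WD (star D : ℕ))).toAffine.Point) :
    {q : ℚ × ℚ | q.2 ^ 2 + (D : ℚ) ^ 2 * q.2 = q.1 ^ 3}.Finite := by
  have h1 := fin_aff (by exact_mod_cast star_ne D) h
  have hD : (D : ℚ) ≠ 0 := by exact_mod_cast h0
  have hr : (rad D : ℚ) ≠ 0 := by exact_mod_cast rad_ne D
  have hs : (D : ℚ) * (star D : ℚ) = (rad D : ℚ) ^ 3 := by exact_mod_cast star_mul_self h0 hC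
  set u : ℚ := (D : ℚ) / rad D with hu
  have hu0 : u ≠ 0 := div_ne_zero hD hr
  have e : (D : ℚ) ^ 2 = u ^ 3 * (star D : ℚ) := by
    rw [hu, div_pow]
    field_simp
    linear_combination -hs
  refine (h1.image fun q : ℚ × ℚ => (u ^ 2 * q.1, u ^ 3 * q.2)).subset ?_
  rintro ⟨x, y⟩ hxy
  have hxy' : y ^ 2 + (D : ℚ) ^ 2 * y = x ^ 3 := hxy
  refine ⟨(x / u ^ 2, y / u ^ 3), ?_, ?_⟩
  · show (y / u ^ 3) ^ 2 + (((star D : ℕ) : ℤ) : ℚ) * (y / u ^ 3) = (x / u ^ 2) ^ 3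
    rw [e] at hxy'
    rw [Int.cast_natCast]
    field_simp
    linear_combination hxy'
  · ext <;> simp only <;> field_simp

end Pool.Agent.W5h35.CU
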