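import Mathlib

/-!
# Diagonal cubic hypersurfaces over finite fields: the numbers of points
-/

set_option autoImplicit false

namespace Pool.Agent.W5h35.CU

open Finset

/-- the number of solutions of `D x₀³ + x₁³ + … + x_m³ = 0` -/
noncomputable def sol (F : Type) [Field F] (m : ℕ) (D : F) : ℕ :=
  Nat.card {x : Fin (m + 1) → F // D * x 0 ^ 3 + ∑ i : Fin m, x i.succ ^ 3 = 0}

section

variable {F : Type} [Field F] [Fintype F] [DecidableEq F]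

/-- the sums `∑ ψ (t x³)` -/
noncomputable def G (ψ : AddChar F ℂ) (t : F) : ℂ := ∑ x : F, ψ (t * x ^ 3)

theorem psi_sum (ψ : AddChar F ℂ) {ι : Type} (s : Finset ι) (f : ι → F) :
    ψ (∑ i ∈ s, f i) = ∏ i ∈ s, ψ (f i) := by
  classical
  induction s using Finset.induction_on with
  | empty => simp
  | insert a s ha ih => rw [sum_insert ha, prod_insert ha, AddChar.map_add_eq_mul, ih]

theorem sol_eq {ψ : AddChar F ℂ} (hψ : ψ.IsPrimitive) (m : ℕ) (D : F) :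
    (Fintype.card F : ℂ) * sol F m D = ∑ t : F, G ψ (t * D) * G ψ t ^ m := by
  classical
  have h1 : ∀ t : F, G ψ (t * D) * G ψ t ^ m =
      ∑ x : Fin (m + 1) → F, ψ (t * (D * x 0 ^ 3 + ∑ i : Fin m, x i.succ ^ 3)) := by
    intro t
    unfold G
    rw [← (Fin.consEquiv (fun _ : Fin (m + 1) => F)).sum_comp, Fintype.sum_prod_type,
      Fintype.sum_pow, Finset.sum_mul_sum]
    refine sum_congr rfl fun a _ => sum_congr rfl fun v _ => ?_
    simp only [Fin.consEquiv_apply, Fin.cons_zero, Fin.cons_succ, mul_add,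
      AddChar.map_add_eq_mul, mul_sum, psi_sum]
    rw [mul_assoc]
  rw [sum_congr rfl fun t _ => h1 t, sum_comm]
  have h2 : ∀ x : Fin (m + 1) → F,
      ∑ t : F, ψ (t * (D * x 0 ^ 3 + ∑ i : Fin m, x i.succ ^ 3)) =
        if D * x 0 ^ 3 + ∑ i : Fin m, x i.succ ^ 3 = 0 then (Fintype.card F : ℂ) else 0 := by
    intro x
    rw [AddChar.sum_mulShift _ hψ]
    simp
  rw [sum_congr rfl fun x _ => h2 x, ← sum_filter, sum_const, nsmul_eq_mul, mul_comm]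
  congr 2
  unfold sol
  rw [Nat.card_eq_fintype_card, Fintype.card_subtype]

theorem G_zero (ψ : AddChar F ℂ) : G ψ 0 = Fintype.card F := by
  unfold G
  simp

/-- the number of cube roots -/
theorem cube_roots {χ : MulChar F ℂ} (hχ : χ ≠ 1) (h3 : χ ^ 3 = 1) (y : F) :
    (((univ.filter fun x : F => x ^ 3 = y).card : ℕ) : ℂ) = 1 + χ y + χ⁻¹ y := by
  classical
  have hval : ∀ y : F, y ≠ 0 → χ y ^ 3 = 1 := by
    intro y hy
    rw [← MulChar.pow_apply' χ (by norm_num), h3, MulChar.one_apply (isUnit_iff_ne_zero.2 hy)]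
  have hinv : ∀ y : F, χ⁻¹ y = χ y ^ 2 := by
    intro y
    rcases eq_or_ne y 0 with rfl | hy
    · rw [MulChar.map_zero, MulChar.map_zero]
      norm_num
    · rw [MulChar.inv_apply']
      have e1 : χ y⁻¹ * χ y = 1 := by
        rw [← map_mul, inv_mul_cancel₀ hy, map_one]
      have e2 := hval y hy
      have : χ y⁻¹ * χ y ^ 3 = χ y ^ 2 := by
        linear_combination (χ y ^ 2) * e1
      rw [e2, mul_one] at this
      exact this
  -- the trichotomy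
  have hzero : ∀ y : F, y ≠ 0 → χ y ≠ 1 → 1 + χ y + χ y ^ 2 = 0 := by
    intro y hy hne
    have e := hval y hy
    have : (χ y - 1) * (1 + χ y + χ y ^ 2) = 0 := by linear_combination e
    exact (mul_eq_zero.1 this).resolve_left (sub_ne_zero.2 hne)
  set r : F → ℕ := fun y => (univ.filter fun x : F => x ^ 3 = y).card with hr
  have hr3 : ∀ y, r y ≤ 3 := by
    intro y
    have hsub : (univ.filter fun x : F => x ^ 3 = y) ⊆ (Polynomial.nthRoots 3 y).toFinset := by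
      intro x hx
      rw [Multiset.mem_toFinset, Polynomial.mem_nthRoots (by norm_num)]
      exact (mem_filter.1 hx).2
    calc r y ≤ (Polynomial.nthRoots 3 y).toFinset.card := card_le_card hsub
      _ ≤ Multiset.card (Polynomial.nthRoots 3 y) := Multiset.toFinset_card_le _
      _ ≤ 3 := Polynomial.card_nthRoots 3 y
  have hr0 : r 0 = 1 := by
    have : (univ.filter fun x : F => x ^ 3 = 0) = {0} := by
      ext x
      simp
    change (univ.filter fun x : F => x ^ 3 = 0).card = 1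
    rw [this, card_singleton]
  have hrne : ∀ y : F, y ≠ 0 → χ y ≠ 1 → r y = 0 := by
    intro y hy hne
    rw [hr, card_eq_zero, filter_eq_empty_iff]
    intro x _ hx
    apply hne
    have hx0 : x ≠ 0 := by
      rintro rfl
      apply hy
      rw [← hx]
      norm_num
    rw [← hx, map_pow]
    exact hval x hx0
  -- the total number
  have htot : ∑ y : F, r y = Fintype.card F := by
    have := Finset.card_eq_sum_card_fiberwise (s := (univ : Finset F)) (t := (univ : Finset F))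
      (f := fun x : F => x ^ 3) (fun x _ => by simp)
    rw [Finset.card_univ] at this
    exact this.symm
  set S : Finset F := univ.filter fun y : F => y ≠ 0 ∧ χ y = 1 with hS
  have hsumχ : ∑ y : F, χ y = 0 := MulChar.sum_eq_zero_of_ne_one hχ
  have hχ2 : χ⁻¹ ≠ 1 := by
    intro h
    exact hχ (inv_eq_one.1 h)
  have hsumχ2 : ∑ y : F, χ y ^ 2 = 0 := by
    rw [← sum_congr rfl fun y _ => hinv y]
    exact MulChar.sum_eq_zero_of_ne_one hχ2
  have hcount : 3 * S.card + 1 = Fintype.card F := by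
    have h1 : ∑ y : F, (1 + χ y + χ y ^ 2) = (Fintype.card F : ℂ) := by
      rw [sum_add_distrib, sum_add_distrib, hsumχ, hsumχ2]
      simp
    have h2 : ∑ y : F, (1 + χ y + χ y ^ 2) = 1 + ∑ y ∈ S, (3 : ℂ) := by
      rw [hS, sum_filter, ← Finset.add_sum_erase univ _ (mem_univ (0 : F)),
        ← Finset.add_sum_erase univ (fun y : F => if y ≠ 0 ∧ χ y = 1 then (3 : ℂ) else 0)
          (mem_univ (0 : F))]
      simp only [MulChar.map_zero, ne_eq, not_true_eq_false, false_and, if_false]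
      rw [show (1 + 0 + (0 : ℂ) ^ 2) = 1 by norm_num, zero_add]
      congr 1
      refine sum_congr rfl fun y hy => ?_
      have hy0 : y ≠ 0 := (mem_erase.1 hy).1
      by_cases h : χ y = 1
      · rw [if_pos ⟨hy0, h⟩, h]
        norm_num
      · rw [if_neg fun hh => h hh.2, hzero y hy0 h]
    rw [h1, sum_const, nsmul_eq_mul] at h2
    have h3' : ((3 * S.card + 1 : ℕ) : ℂ) = (Fintype.card F : ℂ) := by
      push_cast
      linear_combination -h2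
    exact_mod_cast h3'
  have hrS : ∑ y ∈ S, r y = 3 * S.card := by
    have h1 : ∑ y : F, r y = 1 + ∑ y ∈ S, r y := by
      rw [hS, sum_filter, ← Finset.add_sum_erase univ _ (mem_univ (0 : F)),
        ← Finset.add_sum_erase univ (fun y : F => if y ≠ 0 ∧ χ y = 1 then r y else 0)
          (mem_univ (0 : F))]
      simp only [ne_eq, not_true_eq_false, false_and, if_false, zero_add]
      rw [hr0]
      congr 1
      refine sum_congr rfl fun y hy => ?_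
      have hy0 : y ≠ 0 := (mem_erase.1 hy).1
      by_cases h : χ y = 1
      · rw [if_pos ⟨hy0, h⟩]
      · rw [if_neg fun hh => h hh.2, hrne y hy0 h]
    omega
  have hr3' : ∀ y ∈ S, r y = 3 := by
    intro y hy
    by_contra hne
    have hlt : r y < 3 := lt_of_le_of_ne (hr3 y) hne
    have : ∑ y ∈ S, r y < ∑ _y ∈ S, 3 := Finset.sum_lt_sum (fun y _ => hr3 y) ⟨y, hy, hlt⟩
    rw [sum_const, smul_eq_mul] at this
    omega
  rw [hinv y]
  rcases eq_or_ne y 0 with rfl | hy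
  · change ((r 0 : ℕ) : ℂ) = _
    rw [hr0, MulChar.map_zero]
    norm_num
  · by_cases h : χ y = 1
    · change ((r y : ℕ) : ℂ) = _
      rw [hr3' y (by rw [hS, mem_filter]; exact ⟨mem_univ _, hy, h⟩), h]
      norm_num
    · change ((r y : ℕ) : ℂ) = _
      rw [hrne y hy h, hzero y hy h]
      norm_num

theorem G_ne {χ : MulChar F ℂ} (hχ : χ ≠ 1) (h3 : χ ^ 3 = 1) {ψ : AddChar F ℂ}
    (hψ : ψ.IsPrimitive) {t : F} (ht : t ≠ 0) :
    G ψ t = χ⁻¹ t * gaussSum χ ψ + χ t * gaussSum χ⁻¹ ψ := by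
  classical
  have h1 : G ψ t = ∑ y : F, (1 + χ y + χ⁻¹ y) * ψ (t * y) := by
    unfold G
    rw [← Finset.sum_fiberwise (s := univ) (g := fun x : F => x ^ 3)]
    refine sum_congr rfl fun y _ => ?_
    rw [← cube_roots hχ h3 y, ← nsmul_eq_mul, ← sum_const]
    refine sum_congr rfl fun x hx => ?_
    rw [(mem_filter.1 hx).2]
  have h2 : ∑ y : F, ψ (t * y) = 0 := by
    have := AddChar.sum_mulShift t hψ
    rw [if_neg ht, Nat.cast_zero] at this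
    rw [← this]
    refine sum_congr rfl fun y _ => by rw [mul_comm]
  have h4 : ∀ φ : MulChar F ℂ, ∑ y : F, φ y * ψ (t * y) = φ⁻¹ t * gaussSum φ ψ := by
    intro φ
    have := gaussSum_mulShift_eq φ ψ (Units.mk0 t ht)
    rw [Units.val_mk0] at this
    rw [← this]
    rfl
  rw [h1]
  simp only [add_mul, one_mul, sum_add_distrib]
  rw [h2, h4, h4, inv_inv, zero_add]

/-- the number `g(χ)³ χ̄(D) + g(χ̄)³ χ(D)` -/
noncomputable def A (χ : MulChar F ℂ) (ψ : AddChar F ℂ) (D : F) : ℂ :=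
  gaussSum χ ψ ^ 3 * χ⁻¹ D + gaussSum χ⁻¹ ψ ^ 3 * χ D

theorem chi_pow {χ : MulChar F ℂ} (h3 : χ ^ 3 = 1) {t : F} (ht : t ≠ 0) :
    χ t ^ 3 = 1 ∧ χ⁻¹ t = χ t ^ 2 := by
  have e3 : χ t ^ 3 = 1 := by
    rw [← MulChar.pow_apply' χ (by norm_num), h3, MulChar.one_apply (isUnit_iff_ne_zero.2 ht)]
  refine ⟨e3, ?_⟩
  rw [MulChar.inv_apply']
  have e1 : χ t⁻¹ * χ t = 1 := by
    rw [← map_mul, inv_mul_cancel₀ ht, map_one]
  have : χ t⁻¹ * χ t ^ 3 = χ t ^ 2 := by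
    linear_combination (χ t ^ 2) * e1
  rw [e3, mul_one] at this
  exact this

theorem Q_eq {χ : MulChar F ℂ} (hχ : χ ≠ 1) (h3 : χ ^ 3 = 1) {ψ : AddChar F ℂ}
    (hψ : ψ.IsPrimitive) : gaussSum χ ψ * gaussSum χ⁻¹ ψ = Fintype.card F := by
  have h := gaussSum_mul_gaussSum_eq_card hχ hψ
  have hm : χ (-1) = 1 := by
    obtain ⟨e3, -⟩ := chi_pow h3 (t := (-1 : F)) (by simp)
    have e2 : χ (-1) ^ 2 = 1 := by
      rw [← map_pow]
      simp
    calc χ (-1) = χ (-1) ^ 3 * (χ (-1) ^ 2)⁻¹ := by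
          rw [e2, e3, inv_one, mul_one]
          have : χ (-1) ^ 3 = χ (-1) * χ (-1) ^ 2 := by ring
          rw [e2, mul_one, e3] at this
          exact this.symm
      _ = 1 := by rw [e2, e3, inv_one, mul_one]
  have h2 := mul_gaussSum_inv_eq_gaussSum χ⁻¹ ψ
  rw [MulChar.inv_apply', inv_neg_one, hm, one_mul] at h2
  rw [← h2]
  exact h

/-- the sums over `t ≠ 0` -/
theorem sum_ne {χ : MulChar F ℂ} (hχ : χ ≠ 1) (h3 : χ ^ 3 = 1) (C c₁ c₂ : ℂ) :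
    ∑ t ∈ univ.erase (0 : F), (C + c₁ * χ t + c₂ * χ t ^ 2) =
      ((Fintype.card F : ℂ) - 1) * C := by
  have hχ2 : χ⁻¹ ≠ 1 := by
    intro h
    exact hχ (inv_eq_one.1 h)
  have h1 : ∑ t ∈ univ.erase (0 : F), χ t = 0 := by
    have := MulChar.sum_eq_zero_of_ne_one hχ
    rw [← Finset.add_sum_erase univ _ (mem_univ (0 : F)), MulChar.map_zero, zero_add] at this
    exact this
  have h2 : ∑ t ∈ univ.erase (0 : F), χ t ^ 2 = 0 := by
    have := MulChar.sum_eq_zero_of_ne_one hχ2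
    rw [← Finset.add_sum_erase univ _ (mem_univ (0 : F)), MulChar.map_zero, zero_add] at this
    rw [← this]
    refine sum_congr rfl fun t ht => ?_
    rw [(chi_pow h3 (mem_erase.1 ht).1).2]
  rw [sum_add_distrib, sum_add_distrib, ← mul_sum, ← mul_sum, h1, h2, sum_const,
    card_erase_of_mem (mem_univ _), card_univ, nsmul_eq_mul,
    Nat.cast_sub (Fintype.card_pos_iff.2 ⟨0⟩), Nat.cast_one]
  ring

theorem G_mul {χ : MulChar F ℂ} (hχ : χ ≠ 1) (h3 : χ ^ 3 = 1) {ψ : AddChar F ℂ}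
    (hψ : ψ.IsPrimitive) {t D : F} (ht : t ≠ 0) (hD : D ≠ 0) :
    G ψ t = χ t ^ 2 * gaussSum χ ψ + χ t * gaussSum χ⁻¹ ψ ∧
    G ψ (t * D) = χ t ^ 2 * gaussSum χ ψ * χ⁻¹ D + χ t * gaussSum χ⁻¹ ψ * χ D := by
  constructor
  · rw [G_ne hχ h3 hψ ht, (chi_pow h3 ht).2]
  · rw [G_ne hχ h3 hψ (mul_ne_zero ht hD), map_mul, map_mul, (chi_pow h3 ht).2]
    ring

theorem sol_split {ψ : AddChar F ℂ} (hψ : ψ.IsPrimitive) (m : ℕ) (D : F) :
    (Fintype.card F : ℂ) * sol F m D = (Fintype.card F : ℂ) ^ (m + 1) +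
      ∑ t ∈ univ.erase (0 : F), G ψ (t * D) * G ψ t ^ m := by
  rw [sol_eq hψ, ← Finset.add_sum_erase univ _ (mem_univ (0 : F)), zero_mul, G_zero]
  ring

theorem pt {χ : MulChar F ℂ} (h3 : χ ^ 3 = 1) {t : F} (ht : t ≠ 0) (g h d e : ℂ) :
    ((χ t ^ 2 * g * d + χ t * h * e) * (χ t ^ 2 * g + χ t * h) =
      g * h * (d + e) + g ^ 2 * d * χ t + h ^ 2 * e * χ t ^ 2) ∧
    ((χ t ^ 2 * g * d + χ t * h * e) * (χ t ^ 2 * g + χ t * h) ^ 2 =
      (g ^ 3 * d + h ^ 3 * e) + (g * h ^ 2 * (d + 2 * e)) * χ t +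
        (g ^ 2 * h * (2 * d + e)) * χ t ^ 2) ∧
    ((χ t ^ 2 * g + χ t * h) ^ 3 = (g ^ 3 + h ^ 3) + 3 * (g * h) * (χ t ^ 2 * g + χ t * h)) := by
  have hz := (chi_pow h3 ht).1
  set z := χ t
  refine ⟨?_, ?_, ?_⟩
  · linear_combination (g ^ 2 * d * z + g * h * (d + e)) * hz
  · linear_combination (g ^ 3 * d * (z ^ 3 + 1) + (2 * g ^ 2 * h * d + g ^ 2 * h * e) * z ^ 2 +
      (g * h ^ 2 * d + 2 * g * h ^ 2 * e) * z + h ^ 3 * e) * hz
  · linear_combination (g ^ 3 * (z ^ 3 + 1) + 3 * g ^ 2 * h * z ^ 2 + 3 * g * h ^ 2 * z +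
      h ^ 3) * hz

section three

variable {χ : MulChar F ℂ} (hχ : χ ≠ 1) (h3 : χ ^ 3 = 1) {ψ : AddChar F ℂ}
  (hψ : ψ.IsPrimitive) {D : F} (hD : D ≠ 0)

include hχ h3 hψ hD

theorem sol_two :
    (Fintype.card F : ℂ) * sol F 2 D = (Fintype.card F : ℂ) ^ 3 +
      ((Fintype.card F : ℂ) - 1) * A χ ψ D := by
  rw [sol_split hψ, ← sum_ne hχ h3 (A χ ψ D)
    (gaussSum χ ψ * gaussSum χ⁻¹ ψ ^ 2 * (χ⁻¹ D + 2 * χ D))
    (gaussSum χ ψ ^ 2 * gaussSum χ⁻¹ ψ * (2 * χ⁻¹ D + χ D))]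
  congr 1
  refine sum_congr rfl fun t ht => ?_
  obtain ⟨e1, e2⟩ := G_mul hχ h3 hψ (mem_erase.1 ht).1 hD
  obtain ⟨p1, p2, p3⟩ := pt h3 (mem_erase.1 ht).1 (gaussSum χ ψ) (gaussSum χ⁻¹ ψ) (χ⁻¹ D) (χ D)
  rw [e1, e2, p2]
  unfold A
  ring

theorem A_sq : A χ ψ (D ^ 2) = gaussSum χ ψ ^ 3 * χ D + gaussSum χ⁻¹ ψ ^ 3 * χ⁻¹ D := by
  unfold A
  obtain ⟨e1, e2⟩ := chi_pow h3 hD
  rw [map_pow, map_pow, e2]
  have : (χ D ^ 2) ^ 2 = χ D := by linear_combination (χ D) * e1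
  rw [this]

theorem sol_four :
    (Fintype.card F : ℂ) * sol F 4 D = (Fintype.card F : ℂ) ^ 5 +
      ((Fintype.card F : ℂ) - 1) * ((Fintype.card F : ℂ) *
        (4 * A χ ψ D + A χ ψ (D ^ 2))) := by
  rw [A_sq hχ h3 hψ hD, sol_split hψ]
  have hQ := Q_eq hχ h3 hψ
  set g := gaussSum χ ψ
  set h := gaussSum χ⁻¹ ψ
  rw [← sum_ne hχ h3 ((Fintype.card F : ℂ) *
        (4 * A χ ψ D + (g ^ 3 * χ D + h ^ 3 * χ⁻¹ D)))
    ((g ^ 3 + h ^ 3) * (g ^ 2 * χ⁻¹ D) +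
      3 * (g * h) * (g * h ^ 2 * (χ⁻¹ D + 2 * χ D)))
    ((g ^ 3 + h ^ 3) * (h ^ 2 * χ D) +
      3 * (g * h) * (g ^ 2 * h * (2 * χ⁻¹ D + χ D)))]
  congr 1
  refine sum_congr rfl fun t ht => ?_
  obtain ⟨e1, e2⟩ := G_mul hχ h3 hψ (mem_erase.1 ht).1 hD
  obtain ⟨p1, p2, p3⟩ := pt h3 (mem_erase.1 ht).1 g h (χ⁻¹ D) (χ D)
  rw [e1, e2]
  change (χ t ^ 2 * g * χ⁻¹ D + χ t * h * χ D) * (χ t ^ 2 * g + χ t * h) ^ 4 = _
  have e4 : (χ t ^ 2 * g * χ⁻¹ D + χ t * h * χ D) * (χ t ^ 2 * g + χ t * h) ^ 4 =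
      (g ^ 3 + h ^ 3) * ((χ t ^ 2 * g * χ⁻¹ D + χ t * h * χ D) * (χ t ^ 2 * g + χ t * h)) +
      3 * (g * h) * ((χ t ^ 2 * g * χ⁻¹ D + χ t * h * χ D) *
        (χ t ^ 2 * g + χ t * h) ^ 2) := by
    linear_combination ((χ t ^ 2 * g * χ⁻¹ D + χ t * h * χ D) *
      (χ t ^ 2 * g + χ t * h)) * p3
  rw [e4, p1, p2, ← hQ]
  have hA : A χ ψ D = g ^ 3 * χ⁻¹ D + h ^ 3 * χ D := rfl
  rw [hA]
  ring

theorem sol_six :
    (Fintype.card F : ℂ) * sol F 6 D = (Fintype.card F : ℂ) ^ 7 +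
      ((Fintype.card F : ℂ) - 1) * ((Fintype.card F : ℂ) ^ 2 *
        (15 * A χ ψ D + 6 * A χ ψ (D ^ 2))) := by
  rw [A_sq hχ h3 hψ hD, sol_split hψ]
  have hQ := Q_eq hχ h3 hψ
  set g := gaussSum χ ψ
  set h := gaussSum χ⁻¹ ψ
  rw [← sum_ne hχ h3 ((Fintype.card F : ℂ) ^ 2 *
        (15 * A χ ψ D + 6 * (g ^ 3 * χ D + h ^ 3 * χ⁻¹ D)))
    ((g ^ 3 + h ^ 3) ^ 2 * (h * χ D) + 6 * (g ^ 3 + h ^ 3) * (g * h) * (g ^ 2 * χ⁻¹ D) +
      9 * (g * h) ^ 2 * (g * h ^ 2 * (χ⁻¹ D + 2 * χ D)))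
    ((g ^ 3 + h ^ 3) ^ 2 * (g * χ⁻¹ D) + 6 * (g ^ 3 + h ^ 3) * (g * h) * (h ^ 2 * χ D) +
      9 * (g * h) ^ 2 * (g ^ 2 * h * (2 * χ⁻¹ D + χ D)))]
  congr 1
  refine sum_congr rfl fun t ht => ?_
  obtain ⟨e1, e2⟩ := G_mul hχ h3 hψ (mem_erase.1 ht).1 hD
  obtain ⟨p1, p2, p3⟩ := pt h3 (mem_erase.1 ht).1 g h (χ⁻¹ D) (χ D)
  rw [e1, e2]
  change (χ t ^ 2 * g * χ⁻¹ D + χ t * h * χ D) * (χ t ^ 2 * g + χ t * h) ^ 6 = _
  have e4 : (χ t ^ 2 * g * χ⁻¹ D + χ t * h * χ D) * (χ t ^ 2 * g + χ t * h) ^ 6 =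
      (g ^ 3 + h ^ 3) ^ 2 * (χ t ^ 2 * g * χ⁻¹ D + χ t * h * χ D) +
      6 * (g ^ 3 + h ^ 3) * (g * h) *
        ((χ t ^ 2 * g * χ⁻¹ D + χ t * h * χ D) * (χ t ^ 2 * g + χ t * h)) +
      9 * (g * h) ^ 2 * ((χ t ^ 2 * g * χ⁻¹ D + χ t * h * χ D) *
        (χ t ^ 2 * g + χ t * h) ^ 2) := by
    linear_combination ((χ t ^ 2 * g * χ⁻¹ D + χ t * h * χ D) *
      ((χ t ^ 2 * g + χ t * h) ^ 3 + ((g ^ 3 + h ^ 3) + 3 * (g * h) *
        (χ t ^ 2 * g + χ t * h)))) * p3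
  rw [e4, p1, p2, ← hQ]
  have hA : A χ ψ D = g ^ 3 * χ⁻¹ D + h ^ 3 * χ D := rfl
  rw [hA]
  ring

end three

end

end Pool.Agent.W5h35.CU
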