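import Pool.Agent.W5h35.CU.Count
import Pool.Agent.Y145.DW.HD

/-!
# Diagonal cubic hypersurfaces over finite fields: extensions of the ground field
-/

set_option autoImplicit false

namespace Pool.Agent.W5h35.CU

open Finset Pool.Agent.Y145.KS

/-- the character `χ ∘ Norm` -/
noncomputable def nch {F : Type} [Field F] (E : Type) [Field E] [Finite E]
    [Algebra F E] (χ : MulChar F ℂ) : MulChar E ℂ where
  toFun := fun s => χ (Algebra.norm F s)
  map_one' := by simp
  map_mul' := fun x y => by simp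
  map_nonunit' := fun a ha => by
    have h : a = 0 := by
      by_contra h
      exact ha (isUnit_iff_ne_zero.2 h)
    haveI : Module.Finite F E := Module.Finite.of_finite
    have h2 : Algebra.norm F a = 0 := by rw [h]; exact Algebra.norm_zero
    change χ (Algebra.norm F a) = 0
    rw [h2]
    exact χ.map_zero

section

variable {F : Type} [Field F] [Fintype F] (E : Type) [Field E] [Fintype E] [Algebra F E]

theorem nch_apply (χ : MulChar F ℂ) (s : E) : nch E χ s = χ (Algebra.norm F s) := rfl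

theorem nch_mul (χ φ : MulChar F ℂ) : nch E (χ * φ) = nch E χ * nch E φ := by
  ext x
  rfl

theorem nch_one : nch E (1 : MulChar F ℂ) = 1 := by
  classical
  ext x
  have h : Algebra.norm F (x : E) ≠ 0 := by
    haveI : Module.Finite F E := Module.Finite.of_finite
    intro h
    exact x.ne_zero (Algebra.norm_eq_zero_iff.1 h)
  rw [nch_apply, MulChar.one_apply (isUnit_iff_ne_zero.2 h), MulChar.one_apply_coe]

theorem nch_inv (χ : MulChar F ℂ) : nch E χ⁻¹ = (nch E χ)⁻¹ := by
  have h : nch E χ⁻¹ * nch E χ = 1 := by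
    rw [← nch_mul, inv_mul_cancel, nch_one]
  exact eq_inv_of_mul_eq_one_left h

theorem nch_cube {χ : MulChar F ℂ} (h3 : χ ^ 3 = 1) : nch E χ ^ 3 = 1 := by
  have : nch E (χ ^ 3) = nch E χ ^ 3 := by
    rw [pow_succ, pow_two, nch_mul, nch_mul, pow_succ, pow_two]
  rw [← this, h3, nch_one]

theorem nch_ne_one {χ : MulChar F ℂ} (hχ : χ ≠ 1) : nch E χ ≠ 1 := by
  classical
  intro h
  apply hχ
  ext a
  obtain ⟨x, hx⟩ := FiniteField.norm_surjective F E (a : F)
  have h1 : nch E χ x = (1 : MulChar E ℂ) x := by rw [h]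
  have hx0 : x ≠ 0 := by
    rintro rfl
    haveI : Module.Finite F E := Module.Finite.of_finite
    rw [Algebra.norm_zero] at hx
    exact a.ne_zero hx.symm
  rw [nch_apply, hx, MulChar.one_apply (isUnit_iff_ne_zero.2 hx0)] at h1
  rw [h1, MulChar.one_apply_coe]

theorem gs_nch (χ : MulChar F ℂ) {ψ : AddChar F ℂ} (hψ : ψ ≠ 1) :
    gaussSum (nch E χ) (psi ψ E) =
      (-1) ^ (Module.finrank F E - 1) * gaussSum χ ψ ^ Module.finrank F E := by
  classical
  exact Pool.Agent.Y145.DW.hasse_davenport χ hψ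

/-- the value of `A` over an extension -/
theorem A_ext (χ : MulChar F ℂ) {ψ : AddChar F ℂ} (hψ : ψ ≠ 1) (D : F) :
    A (nch E χ) (psi ψ E) (algebraMap F E D) =
      (-1) ^ (Module.finrank F E - 1) *
        ((gaussSum χ ψ ^ 3 * χ⁻¹ D) ^ Module.finrank F E +
          (gaussSum χ⁻¹ ψ ^ 3 * χ D) ^ Module.finrank F E) := by
  unfold A
  have hm : ((-1 : ℂ) ^ (Module.finrank F E - 1)) ^ 3 = (-1) ^ (Module.finrank F E - 1) := by
    rcases neg_one_pow_eq_or ℂ (Module.finrank F E - 1) with h | h <;> rw [h] <;> norm_num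
  rw [← nch_inv, nch_apply, nch_apply, Algebra.norm_algebraMap, map_pow, map_pow,
    gs_nch E χ hψ, gs_nch E χ⁻¹ hψ, mul_pow, mul_pow, hm]
  ring

end

section

variable {E : Type} [Field E] [Fintype E]

/-- the three numbers of points in terms of the power sums -/
theorem sol_of_A {χ : MulChar E ℂ} (hχ : χ ≠ 1) (h3 : χ ^ 3 = 1) {ψ : AddChar E ℂ}
    (hψ : ψ ≠ 1) {D : E} (hD : D ≠ 0) {S T : ℂ}
    (hS : A χ ψ D = -((Fintype.card E : ℂ) * S))
    (hT : A χ ψ (D ^ 2) = -((Fintype.card E : ℂ) * T)) :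
    (sol E 2 D : ℂ) = (Fintype.card E : ℂ) ^ 2 - ((Fintype.card E : ℂ) - 1) * S ∧
    (sol E 4 D : ℂ) = (Fintype.card E : ℂ) ^ 4 -
      ((Fintype.card E : ℂ) - 1) * ((Fintype.card E : ℂ) * (4 * S + T)) ∧
    (sol E 6 D : ℂ) = (Fintype.card E : ℂ) ^ 6 -
      ((Fintype.card E : ℂ) - 1) * ((Fintype.card E : ℂ) ^ 2 * (15 * S + 6 * T)) ∧
    (sol E 2 (D ^ 2) : ℂ) = (Fintype.card E : ℂ) ^ 2 - ((Fintype.card E : ℂ) - 1) * T := by
  classical
  have hp : ψ.IsPrimitive := AddChar.IsPrimitive.of_ne_one hψ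
  have hq : (Fintype.card E : ℂ) ≠ 0 := by
    exact_mod_cast (Fintype.card_pos_iff.2 ⟨(0 : E)⟩).ne'
  have e2 := sol_two hχ h3 hp hD
  have e4 := sol_four hχ h3 hp hD
  have e6 := sol_six hχ h3 hp hD
  have e2' := sol_two hχ h3 hp (pow_ne_zero 2 hD)
  rw [hS] at e2
  rw [hT] at e2'
  rw [hS, hT] at e4 e6
  refine ⟨?_, ?_, ?_, ?_⟩
  · apply mul_left_cancel₀ hq
    rw [e2]
    ring
  · apply mul_left_cancel₀ hq
    rw [e4]
    ring
  · apply mul_left_cancel₀ hq
    rw [e6]
    ring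
  · apply mul_left_cancel₀ hq
    rw [e2']
    ring

/-- the case of a bijective cubing -/
theorem sol_bij (hb : Function.Bijective fun x : E => x ^ 3) {m : ℕ} (hm : 1 ≤ m) (D : E) :
    (sol E m D : ℂ) = (Fintype.card E : ℂ) ^ m := by
  classical
  obtain ⟨ψ, hp⟩ : ∃ ψ : AddChar E ℂ, ψ.IsPrimitive :=
    ⟨AddChar.FiniteField.primitiveChar_to_Complex E,
      AddChar.FiniteField.primitiveChar_to_Complex_isPrimitive E⟩
  have hq : (Fintype.card E : ℂ) ≠ 0 := by
    exact_mod_cast (Fintype.card_pos_iff.2 ⟨(0 : E)⟩).ne'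
  have h := sol_split hp m D
  have h0 : ∀ t ∈ univ.erase (0 : E), G ψ (t * D) * G ψ t ^ m = 0 := by
    intro t ht
    have : G ψ t = 0 := by
      unfold G
      rw [Function.Bijective.sum_comp hb fun y => ψ (t * y)]
      have := AddChar.sum_mulShift t hp
      rw [if_neg (mem_erase.1 ht).1, Nat.cast_zero] at this
      rw [← this]
      refine sum_congr rfl fun y _ => by rw [mul_comm]
    rw [this, zero_pow (by omega), mul_zero]
  rw [sum_eq_zero h0, add_zero, pow_succ'] at h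
  exact mul_left_cancel₀ hq h

end

end Pool.Agent.W5h35.CU
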