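import Mathlib
import Pool.Agent.Y703.CT.Defs

/-!
# The cube-free number `D*` with `D D*` a cube
-/

set_option autoImplicit false

namespace Pool.Agent.W5h35.CU

open Finset
open Pool.Agent.Y703.CT (Cls Base NoSplit)

/-- `D* = rad(D)³ / D` -/
def star (D : ℕ) : ℕ := ∏ p ∈ D.primeFactors, p ^ (3 - D.factorization p)

/-- the radical -/
def rad (D : ℕ) : ℕ := ∏ p ∈ D.primeFactors, p

/-- no cube of a prime divides `D` -/
def CF (D : ℕ) : Prop := ∀ p : ℕ, p.Prime → ¬ p ^ 3 ∣ D

theorem star_ne (D : ℕ) : star D ≠ 0 := by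
  unfold star
  rw [prod_ne_zero_iff]
  intro p hp
  exact pow_ne_zero _ (Nat.prime_of_mem_primeFactors hp).ne_zero

theorem star_fac (D q : ℕ) :
    (star D).factorization q = if q ∈ D.primeFactors then 3 - D.factorization q else 0 := by
  unfold star
  rw [Nat.factorization_prod fun p hp => pow_ne_zero _ (Nat.prime_of_mem_primeFactors hp).ne_zero,
    Finsupp.finsetSum_apply]
  have h : ∀ p ∈ D.primeFactors, (p ^ (3 - D.factorization p)).factorization q =
      if q = p then 3 - D.factorization q else 0 := by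
    intro p hp
    rw [(Nat.prime_of_mem_primeFactors hp).factorization_pow, Finsupp.single_apply]
    by_cases h : p = q
    · subst h; simp
    · rw [if_neg h, if_neg fun h' => h h'.symm]
  rw [sum_congr rfl h, sum_ite_eq]

theorem fac_le {D : ℕ} (h0 : D ≠ 0) (hC : CF D) (q : ℕ) : D.factorization q ≤ 2 := by
  by_contra h
  by_cases hq : q.Prime
  · exact hC q hq ((hq.pow_dvd_iff_le_factorization h0).2 (by omega))
  · rw [Nat.factorization_eq_zero_of_not_prime D hq] at h
    omega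

theorem fac_pos {D : ℕ} {q : ℕ} (hq : q ∈ D.primeFactors) : 1 ≤ D.factorization q := by
  have := Nat.mem_primeFactors.1 hq
  exact (this.1.dvd_iff_one_le_factorization this.2.2).1 this.2.1

theorem star_primes {D : ℕ} (h0 : D ≠ 0) (hC : CF D) : (star D).primeFactors = D.primeFactors := by
  ext q
  rw [← Nat.support_factorization, Finsupp.mem_support_iff, star_fac]
  have := fac_le h0 hC q
  by_cases h : q ∈ D.primeFactors
  · rw [if_pos h]
    exact ⟨fun _ => h, fun _ => by omega⟩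
  · rw [if_neg h]
    exact ⟨fun h' => absurd rfl h', fun h' => absurd h' h⟩

theorem star_CF (D : ℕ) : CF (star D) := by
  intro p hp h
  have h1 := (hp.pow_dvd_iff_le_factorization (star_ne D)).1 h
  rw [star_fac] at h1
  split_ifs at h1 with h2
  · have := fac_pos h2
    omega
  · omega

theorem star_star {D : ℕ} (h0 : D ≠ 0) (hC : CF D) : star (star D) = D := by
  apply Nat.eq_of_factorization_eq (star_ne _) h0
  intro q
  rw [star_fac, star_primes h0 hC]
  by_cases h : q ∈ D.primeFactors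
  · rw [if_pos h, star_fac, if_pos h]
    have := fac_le h0 hC q
    omega
  · rw [if_neg h]
    rw [← Nat.support_factorization, Finsupp.mem_support_iff, not_not] at h
    exact h.symm

theorem star_mul_self {D : ℕ} (h0 : D ≠ 0) (hC : CF D) : D * star D = rad D ^ 3 := by
  unfold rad star
  nth_rewrite 1 [← Nat.prod_factorization_pow_eq_self h0]
  rw [Finsupp.prod, Nat.support_factorization, ← prod_mul_distrib, ← prod_pow]
  refine prod_congr rfl fun p hp => ?_
  rw [← pow_add]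
  congr 1
  have := fac_le h0 hC p
  omega

theorem rad_ne (D : ℕ) : rad D ≠ 0 := by
  unfold rad
  rw [prod_ne_zero_iff]
  intro p hp
  exact (Nat.prime_of_mem_primeFactors hp).ne_zero

theorem prime_dvd_rad {D p : ℕ} (hp : p.Prime) (h : p ∣ rad D) : p ∣ D := by
  unfold rad at h
  obtain ⟨q, hq, hpq⟩ := (hp.prime.dvd_finsetProd_iff _).1 h
  have := (Nat.prime_dvd_prime_iff_eq hp (Nat.prime_of_mem_primeFactors hq)).1 hpq
  subst this
  exact Nat.dvd_of_mem_primeFactors hq

theorem dvd_star_iff {D : ℕ} (h0 : D ≠ 0) (hC : CF D) {p : ℕ} (hp : p.Prime) :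
    p ∣ star D ↔ p ∣ D := by
  have h1 : p ∈ (star D).primeFactors ↔ p ∈ D.primeFactors := by rw [star_primes h0 hC]
  rw [Nat.mem_primeFactors, Nat.mem_primeFactors] at h1
  exact ⟨fun h => (h1.1 ⟨hp, h, star_ne D⟩).2.1, fun h => (h1.2 ⟨hp, h, h0⟩).2.1⟩

theorem star_prod {ι : Type} [Fintype ι] {d : ι → ℕ} (h0 : ∀ i, d i ≠ 0)
    (hco : ∀ i j, i ≠ j → Nat.Coprime (d i) (d j)) : star (∏ i, d i) = ∏ i, star (d i) := by
  classical
  apply Nat.eq_of_factorization_eq (star_ne _) (prod_ne_zero_iff.2 fun i _ => star_ne _)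
  intro q
  rw [star_fac, Nat.factorization_prod fun i _ => star_ne _, Finsupp.finsetSum_apply]
  have hP : ∏ i, d i ≠ 0 := prod_ne_zero_iff.2 fun i _ => h0 i
  by_cases hq : q ∈ (∏ i, d i).primeFactors
  · rw [if_pos hq]
    have hqp := Nat.prime_of_mem_primeFactors hq
    obtain ⟨i, -, hi⟩ := (hqp.prime.dvd_finsetProd_iff _).1 (Nat.dvd_of_mem_primeFactors hq)
    have hj : ∀ j, j ≠ i → ¬ q ∣ d j := by
      intro j hj h
      exact Nat.Prime.not_coprime_iff_dvd.2 ⟨q, hqp, h, hi⟩ (hco j i hj)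
    rw [sum_eq_single i, star_fac, if_pos (Nat.mem_primeFactors.2 ⟨hqp, hi, h0 i⟩)]
    · rw [Nat.factorization_prod fun i _ => h0 i, Finsupp.finsetSum_apply, sum_eq_single i]
      · intro j _ hji
        exact Nat.factorization_eq_zero_of_not_dvd (hj j hji)
      · intro h; exact absurd (mem_univ _) h
    · intro j _ hji
      rw [star_fac, if_neg]
      intro h
      exact hj j hji (Nat.dvd_of_mem_primeFactors h)
    · intro h; exact absurd (mem_univ _) h
  · rw [if_neg hq]
    symm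
    apply sum_eq_zero
    intro i _
    rw [star_fac, if_neg]
    intro h
    apply hq
    have h' := Nat.mem_primeFactors.1 h
    exact Nat.mem_primeFactors.2 ⟨h'.1, h'.2.1.trans (dvd_prod_of_mem d (mem_univ i)), hP⟩

theorem cf_of_dvd {a b : ℕ} (h : a ∣ b) (hb : CF b) : CF a :=
  fun p hp h' => hb p hp (h'.trans h)

theorem star_one_iff {D : ℕ} (h0 : D ≠ 0) (hC : CF D) (h : star D = 1) : D = 1 := by
  have := star_primes h0 hC
  rw [h, Nat.primeFactors_one] at this
  rcases Nat.primeFactors_eq_empty.1 this.symm with h | h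
  · exact absurd h h0
  · exact h

theorem noSplit_star {D : ℕ} (h0 : D ≠ 0) (hC : CF D) (h : NoSplit D) : NoSplit (star D) := by
  intro d hd hco hres
  have hd0 : ∀ c, d c ≠ 0 := by
    intro c hc
    apply star_ne D
    rw [← hd]
    exact prod_eq_zero (mem_univ c) hc
  have hdd : ∀ c, d c ∣ star D := fun c => by
    rw [← hd]
    exact dvd_prod_of_mem d (mem_univ c)
  have hCd : ∀ c, CF (d c) := fun c => cf_of_dvd (hdd c) (star_CF D)
  have key : ∃ c, ∀ c', c' ≠ c → star (d c') = 1 := by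
    refine h (fun c => star (d c)) ?_ ?_ ?_
    · rw [← star_prod hd0 hco, hd, star_star h0 hC]
    · intro c c' hcc
      rw [← Nat.disjoint_primeFactors (star_ne _) (star_ne _), star_primes (hd0 c) (hCd c),
        star_primes (hd0 c') (hCd c'), Nat.disjoint_primeFactors (hd0 c) (hd0 c')]
      exact hco c c' hcc
    · intro c p hp hpc
      have hpc' : p ∣ d c := (dvd_star_iff (hd0 c) (hCd c) hp).1 hpc
      obtain ⟨x, hx⟩ := hres c p hp hpc'
      have : Fact p.Prime := ⟨hp⟩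
      have hn : ∀ c', c' ≠ c → ((d c' : ℕ) : ZMod p) ≠ 0 := by
        intro c' hc' h
        rw [ZMod.natCast_eq_zero_iff] at h
        exact Nat.Prime.not_coprime_iff_dvd.2 ⟨p, hp, h, hpc'⟩ (hco c' c hc')
      have h1 := hn (c + 1) ((by decide : ∀ c : ZMod 3, c + 1 ≠ c) c)
      have h2 := hn (c + 2) ((by decide : ∀ c : ZMod 3, c + 2 ≠ c) c)
      have e1 : ((d (c + 1) : ℕ) : ZMod p) * ((star (d (c + 1)) : ℕ) : ZMod p) =
          ((rad (d (c + 1)) : ℕ) : ZMod p) ^ 3 := by
        exact_mod_cast congrArg (Nat.cast (R := ZMod p)) (star_mul_self (hd0 (c + 1)) (hCd (c + 1)))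
      have e2 : ((d (c + 2) : ℕ) : ZMod p) * ((star (d (c + 2)) : ℕ) : ZMod p) =
          ((rad (d (c + 2)) : ℕ) : ZMod p) ^ 3 := by
        exact_mod_cast congrArg (Nat.cast (R := ZMod p)) (star_mul_self (hd0 (c + 2)) (hCd (c + 2)))
      have hx' : ((d (c + 1) : ℕ) : ZMod p) * ((d (c + 2) : ℕ) : ZMod p) ^ 2 = (x : ZMod p) ^ 3 := by
        rw [← ZMod.intCast_zmod_eq_zero_iff_dvd] at hx
        push_cast at hx
        exact sub_eq_zero.1 hx
      have hx0 : (x : ZMod p) ≠ 0 := by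
        intro h
        rw [h, zero_pow (by norm_num)] at hx'
        exact mul_ne_zero h1 (pow_ne_zero 2 h2) hx'
      obtain ⟨y, hy⟩ := ZMod.intCast_surjective
        (((rad (d (c + 1)) : ℕ) : ZMod p) * ((rad (d (c + 2)) : ℕ) : ZMod p) ^ 2 / (x : ZMod p))
      refine ⟨y, ?_⟩
      rw [← ZMod.intCast_zmod_eq_zero_iff_dvd]
      push_cast
      rw [hy, div_pow, sub_eq_zero, eq_div_iff (pow_ne_zero 3 hx0), ← hx']
      linear_combination (((d (c + 2) : ℕ) : ZMod p) ^ 2 * ((star (d (c + 2)) : ℕ) : ZMod p) ^ 2) * e1 +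
        (((rad (d (c + 1)) : ℕ) : ZMod p) ^ 3 * (((d (c + 2) : ℕ) : ZMod p) *
          ((star (d (c + 2)) : ℕ) : ZMod p) + ((rad (d (c + 2)) : ℕ) : ZMod p) ^ 3)) * e2
  obtain ⟨c, hc⟩ := key
  exact ⟨c, fun c' hc' => star_one_iff (hd0 c') (hCd c') (hc c' hc')⟩

theorem cls_star {D : ℕ} (h : Cls D) : Cls (star D) := by
  obtain ⟨⟨h0, h3, hC⟩, h1, h8, q, hq, hq2, hqD, hu⟩ := h
  have hC' : CF D := hC
  have h3' : ¬ 3 ∣ rad D := fun h => h3 (prime_dvd_rad Nat.prime_three h)
  have key : ((D % 9) * (star D % 9)) % 9 = (rad D % 9) ^ 3 % 9 := by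
    rw [← Nat.mul_mod, star_mul_self h0 hC', Nat.pow_mod]
  have h9 : rad D % 9 < 9 := Nat.mod_lt _ (by norm_num)
  have hm : rad D % 9 = 1 ∨ rad D % 9 = 2 ∨ rad D % 9 = 4 ∨ rad D % 9 = 5 ∨ rad D % 9 = 7 ∨
      rad D % 9 = 8 := by omega
  have hr : (rad D % 9) ^ 3 % 9 = 1 ∨ (rad D % 9) ^ 3 % 9 = 8 := by
    rcases hm with h | h | h | h | h | h <;> rw [h] <;> norm_num
  refine ⟨⟨star_ne D, fun h => h3 ((dvd_star_iff h0 hC' Nat.prime_three).1 h), star_CF D⟩, ?_, ?_,
    q, hq, hq2, (dvd_star_iff h0 hC' hq).2 hqD, fun p hp hpD hpq =>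
      hu p hp ((dvd_star_iff h0 hC' hp).1 hpD) hpq⟩
  · intro h
    rw [h] at key
    omega
  · intro h
    rw [h] at key
    omega

end Pool.Agent.W5h35.CU
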