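import Pool.Agent.W5h35.CU.Local
import Pool.Agent.W5h35.CU.Star
import Pool.Agent.Y703.CX.Rank

/-!
# The power sums and the traces of the elliptic curves
-/

set_option autoImplicit false

namespace Pool.Agent.W5h35.CU

open Finset
open Pool.Agent.Y703.CT (WD)
open Pool.Agent.W97.MT (ap affCount)

theorem ap_sol {p : ℕ} [Fact p.Prime] {D : ℤ} (h : ¬ (p : ℤ) ∣ 3 * D) :
    (sol (ZMod p) 2 (D : ZMod p) : ℂ) = (p : ℂ) ^ 2 - ((p : ℂ) - 1) * (ap (WD D) p : ℂ) := by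
  classical
  have hp : p.Prime := Fact.out
  have hpD : ¬ (p : ℤ) ∣ D := fun h' => h (Dvd.dvd.mul_left h' 3)
  have hp3 : p ≠ 3 := by
    rintro rfl
    exact h (Dvd.intro _ rfl)
  have hD : (D : ZMod p) ≠ 0 := by
    rw [Ne, ZMod.intCast_zmod_eq_zero_iff_dvd]
    exact hpD
  rcases eq_or_ne p 2 with h2 | h2
  · subst h2
    have e := Pool.Agent.Y703.CX.ap_two (D := D) (by exact_mod_cast hpD)
    rw [e, sol_bij (cube_bij (by rw [ZMod.card]; norm_num)) (by norm_num), ZMod.card]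
    simp
  · have e2 : (2 : ZMod p) ≠ 0 := by
      intro h
      have h' : ((2 : ℕ) : ZMod p) = 0 := by exact_mod_cast h
      rw [ZMod.natCast_eq_zero_iff] at h'
      exact h2 ((Nat.prime_dvd_prime_iff_eq hp Nat.prime_two).1 h')
    have e3 : (3 : ZMod p) ≠ 0 := by
      intro h
      have h' : ((3 : ℕ) : ZMod p) = 0 := by exact_mod_cast h
      rw [ZMod.natCast_eq_zero_iff] at h'
      exact hp3 ((Nat.prime_dvd_prime_iff_eq hp Nat.prime_three).1 h')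
    have h1 := Pool.Agent.Y703.CX.cnt_eq hp (D := D) h2 hp3
    have h1' : Nat.card {q : ZMod p × ZMod p //
        q.2 ^ 2 = q.1 ^ 3 + ((0 : ℤ) : ZMod p) * q.1 + ((-432 * D ^ 2 : ℤ) : ZMod p)} =
        Nat.card {q : ZMod p × ZMod p // q.2 ^ 2 = q.1 ^ 3 + -432 * (D : ZMod p) ^ 2} := by
      refine Nat.card_congr (Equiv.subtypeEquivRight fun q => ?_)
      push_cast
      rw [zero_mul, add_zero]
    rw [h1', wei_eq e2 e3 hD] at h1
    unfold ap
    rw [← h1, sol_two_eq, roots_eq e2 e3 hD, ZMod.card]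
    push_cast [Nat.cast_sub hp.one_le]
    ring

/-- the traces of `E_D` and of `E_{D²}` -/
theorem ap_link {p : ℕ} [Fact p.Prime] {D : ℤ} (h : ¬ (p : ℤ) ∣ 3 * D) {a b c d : ℂ}
    (hd : Data p D a b c d) :
    a + b = (ap (WD D) p : ℂ) ∧ c + d = (ap (WD (D ^ 2)) p : ℂ) := by
  have hp : p.Prime := Fact.out
  have h' : ¬ (p : ℤ) ∣ 3 * D ^ 2 := by
    intro h1
    apply h
    rcases (Nat.prime_iff_prime_int.1 hp).dvd_or_dvd h1 with h1 | h1
    · exact Dvd.dvd.mul_right h1 D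
    · exact Dvd.dvd.mul_left ((Nat.prime_iff_prime_int.1 hp).dvd_of_dvd_pow h1) 3
  obtain ⟨-, -, -, -, -, -, hd⟩ := hd
  obtain ⟨h1, -, -, h2⟩ := hd (ZMod p) _ _ 1 one_ne_zero (by rw [ZMod.card, pow_one])
  have e1 := ap_sol h
  have e2 := ap_sol h'
  rw [Int.cast_pow] at e2
  rw [e1] at h1
  rw [e2] at h2
  simp only [pow_one] at h1 h2
  have hq : ((p : ℂ) - 1) ≠ 0 := by
    rw [sub_ne_zero]
    exact_mod_cast hp.one_lt.ne'
  constructor
  · apply mul_left_cancel₀ hq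
    linear_combination h1
  · apply mul_left_cancel₀ hq
    linear_combination h2

/-- the traces of `E_{D²}` and of `E_{D*}` -/
theorem ap_star {p : ℕ} [Fact p.Prime] {D : ℕ} (h0 : D ≠ 0) (hC : CF D)
    (h : ¬ (p : ℤ) ∣ 3 * D) : ap (WD ((D : ℤ) ^ 2)) p = ap (WD (star D : ℕ)) p := by
  classical
  have hp : p.Prime := Fact.out
  have hpi := Nat.prime_iff_prime_int.1 hp
  have hpD : ¬ p ∣ D := fun h' => h (Dvd.dvd.mul_left (by exact_mod_cast h') 3)
  have hps : ¬ p ∣ star D := fun h' => hpD ((dvd_star_iff h0 hC hp).1 h')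
  have h1 : ¬ (p : ℤ) ∣ 3 * (D : ℤ) ^ 2 := by
    intro h1
    apply h
    rcases hpi.dvd_or_dvd h1 with h1 | h1
    · exact Dvd.dvd.mul_right h1 _
    · exact Dvd.dvd.mul_left (hpi.dvd_of_dvd_pow h1) 3
  have h2 : ¬ (p : ℤ) ∣ 3 * (star D : ℕ) := by
    intro h1
    rcases hpi.dvd_or_dvd h1 with h1 | h1
    · exact h (Dvd.dvd.mul_right h1 _)
    · exact hps (by exact_mod_cast h1)
  have e1 := ap_sol h1
  have e2 := ap_sol h2
  have hD : (D : ZMod p) ≠ 0 := by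
    rw [Ne, ZMod.natCast_eq_zero_iff]
    exact hpD
  have hr : (rad D : ZMod p) ≠ 0 := by
    rw [Ne, ZMod.natCast_eq_zero_iff]
    exact fun h' => hpD (prime_dvd_rad hp h')
  have hs : (D : ZMod p) * (star D : ZMod p) = (rad D : ZMod p) ^ 3 := by
    exact_mod_cast congrArg (Nat.cast (R := ZMod p)) (star_mul_self h0 hC)
  have e3 : (D : ZMod p) ^ 2 = ((D : ZMod p) / (rad D : ZMod p)) ^ 3 * (star D : ZMod p) := by
    rw [div_pow]
    field_simp
    linear_combination -hs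
  have e4 : sol (ZMod p) 2 ((((D : ℤ) ^ 2 : ℤ)) : ZMod p) =
      sol (ZMod p) 2 (((star D : ℕ) : ℤ) : ZMod p) := by
    push_cast
    rw [sol_two_eq, sol_two_eq, e3, N2_scale (div_ne_zero hD hr)]
  rw [e4, e2] at e1
  have hq : ((p : ℂ) - 1) ≠ 0 := by
    rw [sub_ne_zero]
    exact_mod_cast hp.one_lt.ne'
  have : (ap (WD ((D : ℤ) ^ 2)) p : ℂ) = (ap (WD (star D : ℕ)) p : ℂ) := by
    apply mul_left_cancel₀ hq
    linear_combination e1
  exact_mod_cast this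

/-- the Euler factor of `H³` and of `H⁵` -/
theorem euler {p : ℕ} [Fact p.Prime] {D : ℤ} (h : ¬ (p : ℤ) ∣ 3 * D) {s : ℂ} :
    ((3 : ℝ) / 2 < s.re → Summable (term 3 D p s) ∧ Complex.exp (∑' k, term 3 D p s k) =
      (1 - (ap (WD D) p : ℂ) * (p : ℂ) ^ (-(s - 1)) + (p : ℂ) ^ (1 - 2 * (s - 1)))⁻¹ ^ 4 *
      (1 - (ap (WD (D ^ 2)) p : ℂ) * (p : ℂ) ^ (-(s - 1)) + (p : ℂ) ^ (1 - 2 * (s - 1)))⁻¹ ^ 1) ∧
    ((5 : ℝ) / 2 < s.re → Summable (term 5 D p s) ∧ Complex.exp (∑' k, term 5 D p s k) =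
      (1 - (ap (WD D) p : ℂ) * (p : ℂ) ^ (-(s - 2)) + (p : ℂ) ^ (1 - 2 * (s - 2)))⁻¹ ^ 15 *
      (1 - (ap (WD (D ^ 2)) p : ℂ) * (p : ℂ) ^ (-(s - 2)) + (p : ℂ) ^ (1 - 2 * (s - 2)))⁻¹ ^ 6) := by
  have hp : p.Prime := Fact.out
  have hpD : ¬ (p : ℤ) ∣ D := fun h' => h (Dvd.dvd.mul_left h' 3)
  have hp3 : p ≠ 3 := by
    rintro rfl
    exact h (Dvd.intro _ rfl)
  obtain ⟨a, b, c, d, hdat⟩ := exists_data hp3 hpD
  obtain ⟨e1, e2⟩ := ap_link h hdat
  have hdat' := hdat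
  obtain ⟨hab, hcd, na, nb, nc, nd, -⟩ := hdat'
  rw [← e1, ← e2]
  constructor
  · intro hs
    have := factor_gen hp hab hcd na nb nc nd 1 4 1 (s := s) (f := term 3 D p s)
      (by push_cast; linarith) (fun k => by unfold term; rw [tr_three hdat (Nat.succ_ne_zero k)])
    simpa using this
  · intro hs
    have := factor_gen hp hab hcd na nb nc nd 2 15 6 (s := s) (f := term 5 D p s)
      (by push_cast; linarith) (fun k => by unfold term; rw [tr_five hdat (Nat.succ_ne_zero k)])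
    simpa using this

end Pool.Agent.W5h35.CU
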