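import Pool.Agent.W5h35.CU.Proj

/-!
# The Euler factors
-/

set_option autoImplicit false

namespace Pool.Agent.W5h35.CU

open Finset

/-- the trace of the `k`-th power of the Frobenius on `H^n`, `n` odd, by the Lefschetz trace
formula -/
noncomputable def tr (n : ℕ) (D : ℤ) (p : ℕ) [Fact p.Prime] (k : ℕ) : ℤ :=
  ∑ j ∈ range (n + 1), ((p : ℤ) ^ k) ^ j - pts n D p k

/-- the terms of the logarithm of the Euler factor of `H^n` at `p` -/
noncomputable def term (n : ℕ) (D : ℤ) (p : ℕ) [Fact p.Prime] (s : ℂ) (k : ℕ) : ℂ :=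
  (tr n D p (k + 1) : ℂ) * ((p : ℂ) ^ (-s)) ^ (k + 1) / ((k + 1 : ℕ) : ℂ)

theorem hasSum_log {z : ℂ} (hz : ‖z‖ < 1) :
    HasSum (fun k : ℕ => z ^ (k + 1) / ((k + 1 : ℕ) : ℂ)) (-Complex.log (1 - z)) := by
  have h := Complex.hasSum_taylorSeries_neg_log hz
  have h2 := (hasSum_nat_add_iff' (f := fun n : ℕ => z ^ n / (n : ℂ)) 1).2 h
  simpa using h2

theorem exp_log {z : ℂ} (hz : ‖z‖ < 1) : Complex.exp (-Complex.log (1 - z)) = (1 - z)⁻¹ := by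
  rw [Complex.exp_neg, Complex.exp_log]
  intro h
  have : z = 1 := by linear_combination -h
  rw [this, norm_one] at hz
  exact lt_irrefl _ hz

/-- the exponentials of the power sums -/
theorem factor_gen {p : ℕ} (hp : p.Prime) {a b c d : ℂ} (hab : a * b = p) (hcd : c * d = p)
    (ha : ‖a‖ = Real.sqrt p) (hb : ‖b‖ = Real.sqrt p) (hc : ‖c‖ = Real.sqrt p)
    (hd : ‖d‖ = Real.sqrt p) (m M N : ℕ) {s : ℂ} (hs : (m : ℝ) + 1 / 2 < s.re) {f : ℕ → ℂ}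
    (hf : ∀ k : ℕ, f k = ((p : ℂ) ^ (k + 1)) ^ m * (M * (a ^ (k + 1) + b ^ (k + 1)) +
      N * (c ^ (k + 1) + d ^ (k + 1))) * ((p : ℂ) ^ (-s)) ^ (k + 1) / ((k + 1 : ℕ) : ℂ)) :
    Summable f ∧ Complex.exp (∑' k, f k) =
      (1 - (a + b) * (p : ℂ) ^ (-(s - m)) + (p : ℂ) ^ (1 - 2 * (s - m)))⁻¹ ^ M *
      (1 - (c + d) * (p : ℂ) ^ (-(s - m)) + (p : ℂ) ^ (1 - 2 * (s - m)))⁻¹ ^ N := by
  have hp0 : (p : ℂ) ≠ 0 := by exact_mod_cast hp.ne_zero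
  have hp1 : (1 : ℝ) < p := by exact_mod_cast hp.one_lt
  have hpp : (0 : ℝ) < p := by linarith
  set T : ℂ := (p : ℂ) ^ (-(s - m)) with hT
  have hT1 : (p : ℂ) ^ m * (p : ℂ) ^ (-s) = T := by
    rw [hT, ← Complex.cpow_natCast, ← Complex.cpow_add _ _ hp0]
    congr 1
    ring
  have hT2 : (p : ℂ) ^ (1 - 2 * (s - m)) = p * T ^ 2 := by
    rw [hT, pow_two, ← Complex.cpow_add _ _ hp0]
    nth_rewrite 2 [← Complex.cpow_one (p : ℂ)]
    rw [← Complex.cpow_add _ _ hp0]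
    congr 1
    ring
  have hTn : ‖T‖ = (p : ℝ) ^ (-(s.re - m)) := by
    rw [hT, Complex.norm_natCast_cpow_of_pos hp.pos]
    simp
  have hsmall : ∀ {z : ℂ}, ‖z‖ = Real.sqrt p → ‖z * T‖ < 1 := by
    intro z hz
    rw [norm_mul, hz, hTn, Real.sqrt_eq_rpow, ← Real.rpow_add hpp]
    apply Real.rpow_lt_one_of_one_lt_of_neg hp1
    linarith
  have hA := hasSum_log (hsmall ha)
  have hB := hasSum_log (hsmall hb)
  have hC := hasSum_log (hsmall hc)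
  have hD := hasSum_log (hsmall hd)
  have hsum := ((hA.add hB).mul_left (M : ℂ)).add ((hC.add hD).mul_left (N : ℂ))
  have hf' : f = fun k : ℕ => (M : ℂ) * ((a * T) ^ (k + 1) / ((k + 1 : ℕ) : ℂ) +
      (b * T) ^ (k + 1) / ((k + 1 : ℕ) : ℂ)) + (N : ℂ) * ((c * T) ^ (k + 1) / ((k + 1 : ℕ) : ℂ) +
      (d * T) ^ (k + 1) / ((k + 1 : ℕ) : ℂ)) := by
    funext k
    rw [hf k, ← hT1]
    simp only [mul_pow]
    rw [← pow_mul, ← pow_mul, mul_comm (k + 1) m]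
    ring
  rw [← hf'] at hsum
  refine ⟨hsum.summable, ?_⟩
  rw [hsum.tsum_eq, Complex.exp_add, Complex.exp_nat_mul, Complex.exp_nat_mul, Complex.exp_add,
    Complex.exp_add, exp_log (hsmall ha), exp_log (hsmall hb), exp_log (hsmall hc),
    exp_log (hsmall hd), hT2]
  have e1 : (1 - a * T)⁻¹ * (1 - b * T)⁻¹ = (1 - (a + b) * T + p * T ^ 2)⁻¹ := by
    rw [← mul_inv, ← hab]
    congr 1
    ring
  have e2 : (1 - c * T)⁻¹ * (1 - d * T)⁻¹ = (1 - (c + d) * T + p * T ^ 2)⁻¹ := by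
    rw [← mul_inv, ← hcd]
    congr 1
    ring
  rw [e1, e2]

theorem geom {q : ℂ} (n : ℕ) : (q - 1) * ∑ j ∈ range n, q ^ j = q ^ n - 1 := mul_geom_sum q n

theorem tr_three {p : ℕ} [Fact p.Prime] {D : ℤ} {a b c d : ℂ} (h : Data p D a b c d) {k : ℕ}
    (hk : k ≠ 0) : (tr 3 D p k : ℂ) = ((p : ℂ) ^ k) ^ 1 * ((4 : ℕ) * (a ^ k + b ^ k) +
      (1 : ℕ) * (c ^ k + d ^ k)) := by
  obtain ⟨-, -, -, -, -, -, h⟩ := h
  have : Fintype (GaloisField p k) := Fintype.ofFinite _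
  have hc : Fintype.card (GaloisField p k) = p ^ k := by
    rw [← Nat.card_eq_fintype_card, GaloisField.card p k hk]
  obtain ⟨-, h4, -, -⟩ := h (GaloisField p k) _ _ k hk hc
  have h1 := pts_eq (p := p) hk 3 D
  have hq : ((p : ℂ) ^ k - 1) ≠ 0 := by
    rw [sub_ne_zero]
    exact_mod_cast (Nat.one_lt_pow hk (Fact.out : p.Prime).one_lt).ne'
  apply mul_left_cancel₀ hq
  unfold tr
  push_cast
  rw [mul_sub, geom, h1, h4]
  ring

theorem tr_five {p : ℕ} [Fact p.Prime] {D : ℤ} {a b c d : ℂ} (h : Data p D a b c d) {k : ℕ}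
    (hk : k ≠ 0) : (tr 5 D p k : ℂ) = ((p : ℂ) ^ k) ^ 2 * ((15 : ℕ) * (a ^ k + b ^ k) +
      (6 : ℕ) * (c ^ k + d ^ k)) := by
  obtain ⟨-, -, -, -, -, -, h⟩ := h
  have : Fintype (GaloisField p k) := Fintype.ofFinite _
  have hc : Fintype.card (GaloisField p k) = p ^ k := by
    rw [← Nat.card_eq_fintype_card, GaloisField.card p k hk]
  obtain ⟨-, -, h6, -⟩ := h (GaloisField p k) _ _ k hk hc
  have h1 := pts_eq (p := p) hk 5 D
  have hq : ((p : ℂ) ^ k - 1) ≠ 0 := by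
    rw [sub_ne_zero]
    exact_mod_cast (Nat.one_lt_pow hk (Fact.out : p.Prime).one_lt).ne'
  apply mul_left_cancel₀ hq
  unfold tr
  push_cast
  rw [mul_sub, geom, h1, h6]
  ring

end Pool.Agent.W5h35.CU
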