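import Pool.Agent.W5h35.CU.Ext

/-!
# Diagonal cubic hypersurfaces over finite fields: the Frobenius eigenvalues
-/

set_option autoImplicit false

namespace Pool.Agent.W5h35.CU

open Finset Pool.Agent.Y145.KS

/-- the numbers of points over `GF (p ^ k)` are given by the power sums of `a`, `b` and of
`c`, `d` -/
def Data (p : ℕ) (D : ℤ) (a b c d : ℂ) : Prop :=
  a * b = p ∧ c * d = p ∧ ‖a‖ = Real.sqrt p ∧ ‖b‖ = Real.sqrt p ∧ ‖c‖ = Real.sqrt p ∧
    ‖d‖ = Real.sqrt p ∧
  ∀ (E : Type) (_ : Field E) (_ : Fintype E) (k : ℕ), k ≠ 0 → Fintype.card E = p ^ k →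
    (sol E 2 (D : E) : ℂ) = (p ^ k : ℂ) ^ 2 - ((p ^ k : ℂ) - 1) * (a ^ k + b ^ k) ∧
    (sol E 4 (D : E) : ℂ) = (p ^ k : ℂ) ^ 4 -
      ((p ^ k : ℂ) - 1) * ((p ^ k : ℂ) * (4 * (a ^ k + b ^ k) + (c ^ k + d ^ k))) ∧
    (sol E 6 (D : E) : ℂ) = (p ^ k : ℂ) ^ 6 -
      ((p ^ k : ℂ) - 1) * ((p ^ k : ℂ) ^ 2 * (15 * (a ^ k + b ^ k) + 6 * (c ^ k + d ^ k))) ∧
    (sol E 2 ((D : E) ^ 2) : ℂ) = (p ^ k : ℂ) ^ 2 - ((p ^ k : ℂ) - 1) * (c ^ k + d ^ k)

theorem norm_gs {F : Type} [Field F] [Fintype F] {χ : MulChar F ℂ} (hχ : χ ≠ 1)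
    {ψ : AddChar F ℂ} (hψ : ψ.IsPrimitive) :
    ‖gaussSum χ ψ‖ = Real.sqrt (Fintype.card F) := by
  have h := gaussSum_mul_gaussSum_eq_card hχ hψ
  rw [← star_gaussSum_eq, Complex.star_def, Complex.mul_conj] at h
  have h2 : Complex.normSq (gaussSum χ ψ) = (Fintype.card F : ℝ) := by
    exact_mod_cast h
  rw [Complex.norm_def, h2]

theorem norm_chi {F : Type} [Field F] [Fintype F] {χ : MulChar F ℂ} (h3 : χ ^ 3 = 1) {D : F}
    (hD : D ≠ 0) : ‖χ D‖ = 1 := by
  have h : χ D ^ 3 = 1 := by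
    have h1 : (χ ^ 3) D = 1 := by rw [h3, MulChar.one_apply (isUnit_iff_ne_zero.2 hD)]
    rwa [MulChar.pow_apply' χ (by norm_num : 3 ≠ 0)] at h1
  have h2 : ‖χ D‖ ^ 3 = 1 := by rw [← norm_pow, h, norm_one]
  exact (pow_eq_one_iff_of_nonneg (norm_nonneg _) (by norm_num)).1 h2

/-- the primes `1` modulo `3` -/
theorem data_one {p : ℕ} [Fact p.Prime] (hp : p % 3 = 1) {D : ℤ} (hD : ¬ (p : ℤ) ∣ D) :
    ∃ a b c d : ℂ, Data p D a b c d := by
  classical
  have hpp : p.Prime := Fact.out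
  have hp0 : (p : ℂ) ≠ 0 := by exact_mod_cast hpp.ne_zero
  have hdvd : 3 ∣ Fintype.card (ZMod p) - 1 := by
    rw [ZMod.card]
    omega
  obtain ⟨χ, hχo⟩ := MulChar.exists_mulChar_orderOf (ZMod p) hdvd
    (Complex.isPrimitiveRoot_exp 3 (by norm_num))
  have h3 : χ ^ 3 = 1 := by rw [← hχo]; exact pow_orderOf_eq_one χ
  have hχ : χ ≠ 1 := by
    rintro rfl
    rw [orderOf_one] at hχo
    omega
  have hχi : χ⁻¹ ≠ 1 := fun h => hχ (inv_eq_one.1 h)
  have h3i : χ⁻¹ ^ 3 = 1 := by rw [inv_pow, h3, inv_one]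
  obtain ⟨ψ, hψp⟩ : ∃ ψ : AddChar (ZMod p) ℂ, ψ.IsPrimitive :=
    ⟨AddChar.FiniteField.primitiveChar_to_Complex _,
      AddChar.FiniteField.primitiveChar_to_Complex_isPrimitive _⟩
  have hψ : ψ ≠ 1 := by
    have := hψp (one_ne_zero)
    rwa [AddChar.mulShift_one] at this
  have hD' : (D : ZMod p) ≠ 0 := by
    rw [Ne, ZMod.intCast_zmod_eq_zero_iff_dvd]
    exact hD
  have hD2 : (D : ZMod p) ^ 2 ≠ 0 := pow_ne_zero 2 hD'
  set g := gaussSum χ ψ with hg
  set h := gaussSum χ⁻¹ ψ with hh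
  have hgh : g * h = p := by
    have := Q_eq hχ h3 hψp
    rwa [ZMod.card] at this
  have ng : ‖g‖ = Real.sqrt p := by
    have := norm_gs hχ hψp
    rwa [ZMod.card] at this
  have nh : ‖h‖ = Real.sqrt p := by
    have := norm_gs hχi hψp
    rwa [ZMod.card] at this
  have hsq : Real.sqrt p ^ 2 = p := Real.sq_sqrt (Nat.cast_nonneg _)
  have hp0' : (p : ℝ) ≠ 0 := by exact_mod_cast hpp.ne_zero
  have nn : ∀ {u v : ℂ}, ‖u‖ = Real.sqrt p → ‖v‖ = 1 → ‖-(u ^ 3 * v) / p‖ = Real.sqrt p := by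
    intro u v hu hv
    rw [norm_div, norm_neg, norm_mul, norm_pow, hu, hv, mul_one, Complex.norm_natCast]
    rw [div_eq_iff hp0']
    rw [pow_succ', hsq]
  have cc : ∀ {z : ZMod p}, z ≠ 0 → χ⁻¹ z * χ z = 1 := by
    intro z hz
    rw [← MulChar.mul_apply, inv_mul_cancel, MulChar.one_apply (isUnit_iff_ne_zero.2 hz)]
  have ab : ∀ {z : ZMod p}, z ≠ 0 →
      (-(g ^ 3 * χ⁻¹ z) / p) * (-(h ^ 3 * χ z) / p) = p := by
    intro z hz
    have e1 := cc hz
    rw [div_mul_div_comm, div_eq_iff (mul_ne_zero hp0 hp0)]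
    have e2 : -(g ^ 3 * χ⁻¹ z) * -(h ^ 3 * χ z) = (g * h) ^ 3 * (χ⁻¹ z * χ z) := by ring
    rw [e2, e1, hgh]
    ring
  refine ⟨-(g ^ 3 * χ⁻¹ (D : ZMod p)) / p, -(h ^ 3 * χ (D : ZMod p)) / p,
    -(g ^ 3 * χ⁻¹ ((D : ZMod p) ^ 2)) / p, -(h ^ 3 * χ ((D : ZMod p) ^ 2)) / p,
    ab hD', ab hD2, nn ng (norm_chi h3i hD'), nn nh (norm_chi h3 hD'),
    nn ng (norm_chi h3i hD2), nn nh (norm_chi h3 hD2), ?_⟩
  intro E _ _ k hk hE
  have : CharP E p := charP_of_card_eq_prime_pow hE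
  let _ : Algebra (ZMod p) E := ZMod.algebra E p
  have hfr : Module.finrank (ZMod p) E = k := by
    have h1 := Module.card_eq_pow_finrank (K := ZMod p) (V := E)
    rw [hE, ZMod.card] at h1
    exact (Nat.pow_right_injective hpp.two_le h1).symm
  have hDE : (D : E) ≠ 0 := by
    intro h0
    apply hD'
    apply (algebraMap (ZMod p) E).injective
    rw [map_intCast, map_zero, h0]
  have key : ∀ z : ZMod p, A (nch E χ) (psi ψ E) (algebraMap (ZMod p) E z) =
      -((Fintype.card E : ℂ) * ((-(g ^ 3 * χ⁻¹ z) / p) ^ k + (-(h ^ 3 * χ z) / p) ^ k)) := by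
    intro z
    rw [A_ext E χ hψ z, hfr, hE, div_pow, div_pow, ← add_div, Nat.cast_pow,
      mul_div_cancel₀ _ (pow_ne_zero k hp0), neg_pow (g ^ 3 * χ⁻¹ z), neg_pow (h ^ 3 * χ z),
      ← mul_add, ← hg, ← hh]
    obtain ⟨k', rfl⟩ := Nat.exists_eq_succ_of_ne_zero hk
    have e0 : (-1 : ℂ) ^ (k'.succ) = -(-1) ^ k' := by rw [pow_succ]; ring
    rw [Nat.succ_sub_one, e0, neg_mul, neg_neg]
  have hS := key (D : ZMod p)
  have hT := key ((D : ZMod p) ^ 2)
  rw [map_intCast] at hS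
  rw [map_pow, map_intCast] at hT
  have := sol_of_A (nch_ne_one E hχ) (nch_cube E h3) (psi_ne_one hψ E) hDE hS hT
  rw [hE, Nat.cast_pow] at this
  exact this

theorem cube_bij {E : Type} [Field E] [Fintype E] (h : Fintype.card E % 3 ≠ 1) :
    Function.Bijective fun x : E => x ^ 3 := by
  classical
  rw [Fintype.bijective_iff_injective_and_card]
  refine ⟨?_, rfl⟩
  intro x y hxy
  simp only at hxy
  by_cases hy : y = 0
  · subst hy
    rw [zero_pow (by norm_num)] at hxy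
    exact pow_eq_zero_iff (by norm_num) |>.1 hxy
  have h1 : (x / y) ^ 3 = 1 := by
    rw [div_pow, hxy, div_self (pow_ne_zero 3 hy)]
  have hx : x / y ≠ 0 := by
    intro h0
    rw [h0, zero_pow (by norm_num)] at h1
    exact zero_ne_one h1
  have h2 : (x / y) ^ (Fintype.card E - 1) = 1 := FiniteField.pow_card_sub_one_eq_one _ hx
  have h3 : orderOf (x / y) ∣ 3 := orderOf_dvd_of_pow_eq_one h1
  have h4 : orderOf (x / y) ∣ Fintype.card E - 1 := orderOf_dvd_of_pow_eq_one h2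
  have h5 : orderOf (x / y) = 1 := by
    rcases (Nat.dvd_prime Nat.prime_three).1 h3 with h5 | h5
    · exact h5
    · exfalso
      rw [h5] at h4
      have := Fintype.card_pos_iff.2 ⟨(0 : E)⟩
      omega
  rw [orderOf_eq_one_iff] at h5
  exact (div_eq_one_iff_eq hy).1 h5

/-- the pure Gauss sums over `GF (p ^ 2)`, `p = 2` modulo `3` -/
theorem pure {p : ℕ} [Fact p.Prime] (hp : p % 3 = 2) (F : Type) [Field F] [Fintype F]
    (hF : Fintype.card F = p ^ 2) :
    ∃ (χ : MulChar F ℂ) (ψ : AddChar F ℂ), χ ≠ 1 ∧ χ ^ 3 = 1 ∧ ψ ≠ 1 ∧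
      gaussSum χ ψ ^ 3 = p ^ 3 ∧ gaussSum χ⁻¹ ψ ^ 3 = p ^ 3 ∧
      ∀ D : ℤ, (D : F) ≠ 0 → χ (D : F) = 1 ∧ χ⁻¹ (D : F) = 1 := by
  classical
  have hpp : p.Prime := Fact.out
  have hdvd : 3 ∣ Fintype.card F - 1 := by
    rw [hF]
    have : p ^ 2 % 3 = 1 := by rw [Nat.pow_mod, hp]
    omega
  obtain ⟨χ, hχo⟩ := MulChar.exists_mulChar_orderOf F hdvd
    (Complex.isPrimitiveRoot_exp 3 (by norm_num))
  have h3 : χ ^ 3 = 1 := by rw [← hχo]; exact pow_orderOf_eq_one χ
  have hχ : χ ≠ 1 := by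
    rintro rfl
    rw [orderOf_one] at hχo
    omega
  have hχi : χ⁻¹ ≠ 1 := fun h => hχ (inv_eq_one.1 h)
  have h3i : χ⁻¹ ^ 3 = 1 := by rw [inv_pow, h3, inv_one]
  obtain ⟨ψ, hψp⟩ : ∃ ψ : AddChar (ZMod p) ℂ, ψ.IsPrimitive :=
    ⟨AddChar.FiniteField.primitiveChar_to_Complex _,
      AddChar.FiniteField.primitiveChar_to_Complex_isPrimitive _⟩
  have hψ : ψ ≠ 1 := by
    have := hψp (one_ne_zero)
    rwa [AddChar.mulShift_one] at this
  have : CharP F p := charP_of_card_eq_prime_pow hF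
  let _ : Algebra (ZMod p) F := ZMod.algebra F p
  have hfr : Module.finrank (ZMod p) F = 2 := by
    have h1 := Module.card_eq_pow_finrank (K := ZMod p) (V := F)
    rw [hF, ZMod.card] at h1
    exact (Nat.pow_right_injective hpp.two_le h1).symm
  -- the characters are trivial on the prime field
  have triv : ∀ {φ : MulChar F ℂ}, φ ^ 3 = 1 → ∀ c : ZMod p, c ≠ 0 →
      φ (algebraMap (ZMod p) F c) = 1 := by
    intro φ h c hc
    obtain ⟨b, hb⟩ := (cube_bij (E := ZMod p) (by rw [ZMod.card]; omega)).2 c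
    simp only at hb
    have hb0 : b ≠ 0 := by
      rintro rfl
      rw [zero_pow (by norm_num)] at hb
      exact hc hb.symm
    have hb0' : algebraMap (ZMod p) F b ≠ 0 := by
      rw [Ne, map_eq_zero]
      exact hb0
    rw [← hb, map_pow, map_pow, ← MulChar.pow_apply' φ (by norm_num), h,
      MulChar.one_apply (isUnit_iff_ne_zero.2 hb0')]
  -- the kernel of the trace
  obtain ⟨r, hr0, hr⟩ : ∃ r : F, r ≠ 0 ∧ ∀ x : F, Algebra.trace (ZMod p) F x = 0 ↔
      ∃ c : ZMod p, algebraMap (ZMod p) F c * r = x := by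
    have h1 := LinearMap.finrank_range_add_finrank_ker (Algebra.trace (ZMod p) F)
    have h2 : LinearMap.range (Algebra.trace (ZMod p) F) = ⊤ :=
      LinearMap.range_eq_top.2 (Algebra.trace_surjective (ZMod p) F)
    rw [h2, hfr, finrank_top, Module.finrank_self] at h1
    have h3 : Module.finrank (ZMod p) (LinearMap.ker (Algebra.trace (ZMod p) F)) = 1 := by omega
    obtain ⟨v, hv, h4⟩ := finrank_eq_one_iff'.1 h3
    refine ⟨v, fun h => hv (Subtype.ext h), fun x => ⟨fun hx => ?_, ?_⟩⟩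
    · obtain ⟨c, hc⟩ := h4 ⟨x, hx⟩
      refine ⟨c, ?_⟩
      rw [← Algebra.smul_def]
      exact congrArg Subtype.val hc
    · rintro ⟨c, rfl⟩
      rw [← Algebra.smul_def, map_smul]
      have : Algebra.trace (ZMod p) F v = 0 := v.2
      rw [this, smul_zero]
  have key : ∀ {φ : MulChar F ℂ}, φ ≠ 1 → φ ^ 3 = 1 → gaussSum φ (psi ψ F) ^ 3 = p ^ 3 := by
    intro φ hφ h
    have e : gaussSum φ (psi ψ F) = p * φ r := by
      have hp1 : ((p : ℂ) - 1) ≠ 0 := by
        rw [sub_ne_zero]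
        exact_mod_cast hpp.one_lt.ne'
      have hin : ∀ t : ZMod p, ∑ c ∈ univ.erase (0 : ZMod p), ψ (c * t) =
          (if t = 0 then (p : ℂ) else 0) - 1 := by
        intro t
        have h1 := AddChar.sum_mulShift t hψp
        rw [← Finset.add_sum_erase univ _ (mem_univ (0 : ZMod p)), zero_mul,
          AddChar.map_zero_eq_one, ZMod.card] at h1
        rw [Nat.cast_ite, Nat.cast_zero] at h1
        linear_combination h1
      have h1 : ∀ c ∈ univ.erase (0 : ZMod p), gaussSum φ (psi ψ F) =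
          ∑ x : F, φ x * ψ (c * Algebra.trace (ZMod p) F x) := by
        intro c hc
        have hc0 := (mem_erase.1 hc).1
        have hc1 : algebraMap (ZMod p) F c ≠ 0 := by
          rw [Ne, map_eq_zero]
          exact hc0
        unfold gaussSum
        rw [← Equiv.sum_comp (Equiv.mulLeft₀ _ hc1)]
        refine sum_congr rfl fun x _ => ?_
        rw [Equiv.mulLeft₀_apply, psi_apply, map_mul φ, triv h c hc0, one_mul]
        beta_reduce
        rw [← Algebra.smul_def, map_smul, smul_eq_mul]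
      have h2 : ((p : ℂ) - 1) * gaussSum φ (psi ψ F) = ((p : ℂ) - 1) * (p * φ r) := by
        have e1 : ((p : ℂ) - 1) * gaussSum φ (psi ψ F) =
            ∑ c ∈ univ.erase (0 : ZMod p), gaussSum φ (psi ψ F) := by
          rw [sum_const, card_erase_of_mem (mem_univ _), card_univ, ZMod.card, nsmul_eq_mul,
            Nat.cast_sub hpp.one_le, Nat.cast_one]
        rw [e1, sum_congr rfl h1, sum_comm]
        have e2 : ∀ x : F, ∑ c ∈ univ.erase (0 : ZMod p),
            φ x * ψ (c * Algebra.trace (ZMod p) F x) =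
            p * (if Algebra.trace (ZMod p) F x = 0 then φ x else 0) - φ x := by
          intro x
          rw [← mul_sum, hin]
          split_ifs <;> ring
        rw [sum_congr rfl fun x _ => e2 x, sum_sub_distrib, MulChar.sum_eq_zero_of_ne_one hφ,
          sub_zero, ← mul_sum, ← sum_filter]
        have e3 : (univ.filter fun x : F => Algebra.trace (ZMod p) F x = 0) =
            univ.image fun c : ZMod p => algebraMap (ZMod p) F c * r := by
          ext x
          rw [mem_filter, mem_image, hr x]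
          simp
        have e4 : ∑ c ∈ univ.erase (0 : ZMod p), φ (algebraMap (ZMod p) F c) = (p : ℂ) - 1 := by
          rw [sum_congr rfl fun c hc => triv h c (mem_erase.1 hc).1, sum_const,
            card_erase_of_mem (mem_univ _), card_univ, ZMod.card, nsmul_eq_mul, mul_one,
            Nat.cast_sub hpp.one_le, Nat.cast_one]
        rw [e3, sum_image fun a _ b _ hab =>
          (algebraMap (ZMod p) F).injective (mul_right_cancel₀ hr0 hab)]
        simp only [map_mul φ]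
        rw [← sum_mul, ← Finset.add_sum_erase univ _ (mem_univ (0 : ZMod p)), map_zero,
          MulChar.map_zero, zero_add, e4]
        ring
      exact mul_left_cancel₀ hp1 h2
    rw [e, mul_pow, ← MulChar.pow_apply' φ (by norm_num), h,
      MulChar.one_apply (isUnit_iff_ne_zero.2 hr0), mul_one]
  refine ⟨χ, psi ψ F, hχ, h3, psi_ne_one hψ F, key hχ h3, key hχi h3i, ?_⟩
  intro D hD
  have hD' : (D : ZMod p) ≠ 0 := by
    intro h0
    apply hD
    have := congrArg (algebraMap (ZMod p) F) h0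
    rwa [map_intCast, map_zero] at this
  have e1 := triv h3 _ hD'
  have e2 := triv h3i _ hD'
  rw [map_intCast] at e1 e2
  exact ⟨e1, e2⟩

/-- the primes `2` modulo `3` -/
theorem data_two {p : ℕ} [Fact p.Prime] (hp : p % 3 = 2) {D : ℤ} (hD : ¬ (p : ℤ) ∣ D) :
    Data p D (Complex.I * Real.sqrt p) (-(Complex.I * Real.sqrt p)) (Complex.I * Real.sqrt p)
      (-(Complex.I * Real.sqrt p)) := by
  classical
  have hpp : p.Prime := Fact.out
  have hp0 : (p : ℂ) ≠ 0 := by exact_mod_cast hpp.ne_zero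
  have hsq : ((Real.sqrt p : ℝ) : ℂ) ^ 2 = p := by
    rw [← Complex.ofReal_pow, Real.sq_sqrt (Nat.cast_nonneg _), Complex.ofReal_natCast]
  have hab : Complex.I * Real.sqrt p * -(Complex.I * Real.sqrt p) = p := by
    have : Complex.I * (Real.sqrt p : ℂ) * -(Complex.I * (Real.sqrt p : ℂ)) =
        -(Complex.I ^ 2) * (Real.sqrt p : ℂ) ^ 2 := by ring
    rw [this, hsq, Complex.I_sq]
    ring
  have hn : ‖Complex.I * (Real.sqrt p : ℂ)‖ = Real.sqrt p := by
    rw [norm_mul, Complex.norm_I, one_mul, Complex.norm_real, Real.norm_of_nonneg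
      (Real.sqrt_nonneg _)]
  refine ⟨hab, hab, hn, by rw [norm_neg, hn], hn, by rw [norm_neg, hn], ?_⟩
  intro E _ _ k hk hE
  have hCE : CharP E p := charP_of_card_eq_prime_pow hE
  have hDE : (D : E) ≠ 0 := by
    rw [Ne, CharP.intCast_eq_zero_iff E p]
    exact hD
  rcases Nat.even_or_odd k with ⟨j, hj⟩ | hk2
  · -- even
    have hj0 : j ≠ 0 := by rintro rfl; exact hk hj
    have hk2 : k = 2 * j := by omega
    subst hk2
    let _ : Algebra (ZMod p) E := ZMod.algebra E p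
    have hfrE : Module.finrank (ZMod p) E = 2 * j := by
      have h1 := Module.card_eq_pow_finrank (K := ZMod p) (V := E)
      rw [hE, ZMod.card] at h1
      exact (Nat.pow_right_injective hpp.two_le h1).symm
    let _ : Fintype (GaloisField p 2) := Fintype.ofFinite _
    have hF : Fintype.card (GaloisField p 2) = p ^ 2 := by
      rw [← Nat.card_eq_fintype_card, GaloisField.card p 2 (by norm_num)]
    obtain ⟨χ, ψ, hχ, h3, hψ, hg, hh, htr⟩ := pure hp (GaloisField p 2) hF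
    obtain ⟨f⟩ : Nonempty (GaloisField p 2 →ₐ[ZMod p] E) := by
      apply FiniteField.nonempty_algHom_of_finrank_dvd
      rw [GaloisField.finrank p (by norm_num), hfrE]
      exact dvd_mul_right 2 j
    let _ : Algebra (GaloisField p 2) E := f.toRingHom.toAlgebra
    have hfr : Module.finrank (GaloisField p 2) E = j := by
      have h1 := Module.card_eq_pow_finrank (K := GaloisField p 2) (V := E)
      rw [hE, hF, ← pow_mul] at h1
      have := Nat.pow_right_injective hpp.two_le h1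
      omega
    have hDF : (D : GaloisField p 2) ≠ 0 := by
      rw [Ne, CharP.intCast_eq_zero_iff (GaloisField p 2) p]
      exact hD
    have key : ∀ z : ℤ, (z : GaloisField p 2) ≠ 0 →
        A (nch E χ) (psi ψ E) (z : E) = -((Fintype.card E : ℂ) * (2 * (-(p : ℂ)) ^ j)) := by
      intro z hz
      have h := A_ext E χ hψ (z : GaloisField p 2)
      rw [map_intCast] at h
      rw [h, hfr, hg, hh, (htr z hz).1, (htr z hz).2, hE, mul_one]
      obtain ⟨j', rfl⟩ := Nat.exists_eq_succ_of_ne_zero hj0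
      rw [Nat.succ_sub_one, neg_pow (p : ℂ)]
      push_cast
      rw [Nat.succ_eq_add_one]
      ring
    have hS := key D hDF
    have hT := key (D ^ 2) (by rw [Int.cast_pow]; exact pow_ne_zero 2 hDF)
    rw [Int.cast_pow] at hT
    have hpw : (Complex.I * (Real.sqrt p : ℂ)) ^ (2 * j) +
        (-(Complex.I * (Real.sqrt p : ℂ))) ^ (2 * j) = 2 * (-(p : ℂ)) ^ j := by
      rw [pow_mul, pow_mul, neg_sq, mul_pow, Complex.I_sq, hsq]
      ring
    rw [hpw]
    have := sol_of_A (nch_ne_one E hχ) (nch_cube E h3) (psi_ne_one hψ E) hDE hS hT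
    rw [hE, Nat.cast_pow] at this
    exact this
  · -- odd
    have hb : Function.Bijective fun x : E => x ^ 3 := by
      apply cube_bij
      rw [hE]
      obtain ⟨j, rfl⟩ := hk2
      have : p ^ (2 * j + 1) % 3 = 2 := by
        rw [pow_succ, pow_mul, Nat.mul_mod, Nat.pow_mod (p ^ 2), Nat.pow_mod p, hp]
        norm_num
      omega
    have hpw : (Complex.I * (Real.sqrt p : ℂ)) ^ k +
        (-(Complex.I * (Real.sqrt p : ℂ))) ^ k = 0 := by
      rw [hk2.neg_pow, add_neg_cancel]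
    rw [hpw]
    have e : ∀ (m : ℕ) (z : E), 1 ≤ m → (sol E m z : ℂ) = ((p : ℂ) ^ k) ^ m := by
      intro m z hm
      rw [sol_bij hb hm, hE, Nat.cast_pow]
    rw [e 2 _ (by norm_num), e 4 _ (by norm_num), e 6 _ (by norm_num), e 2 _ (by norm_num)]
    refine ⟨?_, ?_, ?_, ?_⟩ <;> ring

theorem exists_data {p : ℕ} [Fact p.Prime] (hp : p ≠ 3) {D : ℤ} (hD : ¬ (p : ℤ) ∣ D) :
    ∃ a b c d : ℂ, Data p D a b c d := by
  have hpp : p.Prime := Fact.out
  have h0 : p % 3 ≠ 0 := by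
    intro h
    have := (Nat.prime_dvd_prime_iff_eq Nat.prime_three hpp).1 (Nat.dvd_of_mod_eq_zero h)
    exact hp this.symm
  have h1 : p % 3 = 1 ∨ p % 3 = 2 := by omega
  rcases h1 with h1 | h1
  · exact data_one h1 hD
  · exact ⟨_, _, _, _, data_two h1 hD⟩

end Pool.Agent.W5h35.CU
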