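import Pool.Agent.W5h35.CU.Wei

/-!
# Points of the projective hypersurface
-/

set_option autoImplicit false

namespace Pool.Agent.W5h35.CU

open Finset
open scoped LinearAlgebra.Projectivization

/-- the number of points over `GF (p ^ k)` of the hypersurface
`D x₀³ + x₁³ + … + x_{n+1}³ = 0` of dimension `n` -/
noncomputable def pts (n : ℕ) (D : ℤ) (p : ℕ) [Fact p.Prime] (k : ℕ) : ℕ :=
  Nat.card {P : ℙ (GaloisField p k) (Fin (n + 2) → GaloisField p k) //
    (D : GaloisField p k) * P.rep 0 ^ 3 + ∑ i : Fin (n + 1), P.rep i.succ ^ 3 = 0}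

section

variable {K : Type} [Field K] [Fintype K]

theorem proj_count (m : ℕ) (D : K) :
    sol K m D = 1 + (Fintype.card K - 1) *
      Nat.card {P : ℙ K (Fin (m + 1) → K) // D * P.rep 0 ^ 3 + ∑ i : Fin m, P.rep i.succ ^ 3 = 0} := by
  classical
  have hom : ∀ (c : K) (v : Fin (m + 1) → K),
      D * (c • v) 0 ^ 3 + ∑ i : Fin m, (c • v) i.succ ^ 3 =
        c ^ 3 * (D * v 0 ^ 3 + ∑ i : Fin m, v i.succ ^ 3) := by
    intro c v
    simp only [Pi.smul_apply, smul_eq_mul, mul_pow]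
    rw [← mul_sum]
    ring
  have e1 : Nat.card ({P : ℙ K (Fin (m + 1) → K) //
      D * P.rep 0 ^ 3 + ∑ i : Fin m, P.rep i.succ ^ 3 = 0} × Kˣ) =
      Nat.card {x : Fin (m + 1) → K // x ≠ 0 ∧ D * x 0 ^ 3 + ∑ i : Fin m, x i.succ ^ 3 = 0} := by
    refine Nat.card_congr (Equiv.ofBijective (fun t => ⟨(t.2 : K) • t.1.1.rep, ?_, ?_⟩) ⟨?_, ?_⟩)
    · exact smul_ne_zero t.2.ne_zero t.1.1.rep_nonzero
    · rw [hom, t.1.2, mul_zero]
    · rintro ⟨⟨P, hP⟩, u⟩ ⟨⟨Q, hQ⟩, v⟩ h
      simp only [Subtype.mk.injEq] at h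
      have hPQ : P = Q := by
        rw [← P.mk_rep, ← Q.mk_rep, Projectivization.mk_eq_mk_iff']
        refine ⟨(u : K)⁻¹ * v, ?_⟩
        rw [mul_smul, ← h, smul_smul, inv_mul_cancel₀ u.ne_zero, one_smul]
      subst hPQ
      have huv : (u : K) = v := smul_left_injective K P.rep_nonzero h
      simp only [Prod.mk.injEq, true_and]
      exact Units.ext huv
    · rintro ⟨x, hx, hf⟩
      obtain ⟨a, ha⟩ := Projectivization.exists_smul_eq_mk_rep K x hx
      refine ⟨⟨⟨Projectivization.mk K x hx, ?_⟩, a⁻¹⟩, ?_⟩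
      · rw [← ha, Units.smul_def, hom, hf, mul_zero]
      · simp only [Subtype.mk.injEq]
        rw [← ha, Units.smul_def, smul_smul, Units.inv_mul, one_smul]
  have e2 : sol K m D = 1 + Nat.card {x : Fin (m + 1) → K // x ≠ 0 ∧
      D * x 0 ^ 3 + ∑ i : Fin m, x i.succ ^ 3 = 0} := by
    unfold sol
    simp only [Nat.card_eq_fintype_card, Fintype.card_subtype]
    have : (univ.filter fun x : Fin (m + 1) → K =>
        D * x 0 ^ 3 + ∑ i : Fin m, x i.succ ^ 3 = 0) =
        insert 0 (univ.filter fun x : Fin (m + 1) → K => x ≠ 0 ∧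
          D * x 0 ^ 3 + ∑ i : Fin m, x i.succ ^ 3 = 0) := by
      ext x
      simp only [mem_filter, mem_univ, true_and, mem_insert]
      by_cases h : x = 0
      · subst h
        simp
      · simp [h]
    rw [this, card_insert_of_notMem (by simp), add_comm]
  rw [e2, ← e1, Nat.card_prod, mul_comm (Fintype.card K - 1)]
  congr 2
  rw [Nat.card_eq_fintype_card, Fintype.card_units]

end

/-- the numbers of points -/
theorem pts_eq {p : ℕ} [Fact p.Prime] {k : ℕ} (hk : k ≠ 0) (n : ℕ) (D : ℤ) :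
    ((p : ℂ) ^ k - 1) * (pts n D p k : ℂ) = (sol (GaloisField p k) (n + 1) (D : GaloisField p k) : ℂ)
      - 1 := by
  have : Fintype (GaloisField p k) := Fintype.ofFinite _
  have hc : Fintype.card (GaloisField p k) = p ^ k := by
    rw [← Nat.card_eq_fintype_card, GaloisField.card p k hk]
  have h := proj_count (K := GaloisField p k) (n + 1) (D : GaloisField p k)
  rw [h, hc]
  have h1 : 1 ≤ p ^ k := Nat.one_le_pow _ _ (Fact.out : p.Prime).pos
  unfold pts
  push_cast [Nat.cast_sub h1]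
  ring

end Pool.Agent.W5h35.CU
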