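import Pool.Agent.W5h35.CU.Prime

/-!
# The plane cubic `D x₀³ + x₁³ + x₂³ = 0` and the Weierstrass equation `y² = x³ - 432 D²`
-/

set_option autoImplicit false

namespace Pool.Agent.W5h35.CU

open Finset

section

variable {F : Type} [Field F] [Fintype F] [DecidableEq F]

/-- the number of solutions of `u³ + v³ = z` -/
noncomputable def N2 (F : Type) [Field F] (z : F) : ℕ :=
  Nat.card {w : F × F // w.1 ^ 3 + w.2 ^ 3 = z}

theorem N2_scale {c : F} (hc : c ≠ 0) (z : F) : N2 F (c ^ 3 * z) = N2 F z := by
  unfold N2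
  refine Nat.card_congr
    { toFun := fun w => ⟨(w.1.1 / c, w.1.2 / c), ?_⟩
      invFun := fun w => ⟨(w.1.1 * c, w.1.2 * c), ?_⟩
      left_inv := ?_
      right_inv := ?_ }
  · have := w.2
    simp only
    rw [div_pow, div_pow, ← add_div, this]
    field_simp
  · have := w.2
    simp only
    rw [mul_pow, mul_pow, ← add_mul, this, mul_comm]
  · rintro ⟨⟨u, v⟩, h⟩
    simp only [Subtype.mk.injEq, Prod.mk.injEq]
    constructor <;> field_simp
  · rintro ⟨⟨u, v⟩, h⟩
    simp only [Subtype.mk.injEq, Prod.mk.injEq]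
    constructor <;> field_simp

theorem roots_scale {c : F} (hc : c ≠ 0) :
    Nat.card {u : F // u ^ 3 = c ^ 3} = Nat.card {u : F // u ^ 3 = 1} := by
  refine Nat.card_congr
    { toFun := fun w => ⟨w.1 / c, ?_⟩
      invFun := fun w => ⟨w.1 * c, ?_⟩
      left_inv := ?_
      right_inv := ?_ }
  · rw [div_pow, w.2, div_self (pow_ne_zero 3 hc)]
  · rw [mul_pow, w.2, one_mul]
  · rintro ⟨u, h⟩
    simp only [Subtype.mk.injEq]
    field_simp
  · rintro ⟨u, h⟩
    simp only [Subtype.mk.injEq]
    field_simp

theorem N2_zero : N2 F 0 = 1 + (Fintype.card F - 1) * Nat.card {u : F // u ^ 3 = 1} := by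
  have e : N2 F 0 = ∑ v : F, Nat.card {u : F // u ^ 3 = (-v) ^ 3} := by
    unfold N2
    rw [← Nat.card_sigma]
    refine Nat.card_congr
      { toFun := fun w => ⟨w.1.2, w.1.1, ?_⟩
        invFun := fun s => ⟨(s.2.1, s.1), ?_⟩
        left_inv := ?_
        right_inv := ?_ }
    · have := w.2
      linear_combination this
    · have := s.2.2
      simp only
      linear_combination this
    · rintro ⟨⟨u, v⟩, h⟩
      rfl
    · rintro ⟨v, ⟨u, h⟩⟩
      rfl
  rw [e, ← Finset.add_sum_erase univ _ (mem_univ (0 : F))]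
  congr 1
  · have : {u : F // u ^ 3 = (-0) ^ 3} ≃ Unit :=
      { toFun := fun _ => ()
        invFun := fun _ => ⟨0, by simp⟩
        left_inv := by
          rintro ⟨u, h⟩
          have : u = 0 := by
            rw [neg_zero, zero_pow (by norm_num)] at h
            exact pow_eq_zero_iff (by norm_num) |>.1 h
          simp only [Subtype.mk.injEq]
          exact this.symm
        right_inv := fun _ => rfl }
    rw [Nat.card_congr this]
    simp
  · rw [sum_congr rfl fun v hv => roots_scale (neg_ne_zero.2 (mem_erase.1 hv).1), sum_const,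
      card_erase_of_mem (mem_univ _), card_univ, smul_eq_mul]

theorem sol_two_eq (D : F) : sol F 2 D =
    1 + (Fintype.card F - 1) * Nat.card {u : F // u ^ 3 = 1} +
      (Fintype.card F - 1) * N2 F D := by
  have e : sol F 2 D = ∑ t : F, N2 F (-(D * t ^ 3)) := by
    unfold sol N2
    rw [← Nat.card_sigma]
    refine Nat.card_congr
      { toFun := fun w => ⟨w.1 0, (w.1 1, w.1 2), ?_⟩
        invFun := fun s => ⟨![s.1, s.2.1.1, s.2.1.2], ?_⟩
        left_inv := ?_
        right_inv := ?_ }
    · have := w.2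
      rw [Fin.sum_univ_two] at this
      simp only
      have e1 : (Fin.succ 0 : Fin 3) = 1 := rfl
      have e2 : (Fin.succ 1 : Fin 3) = 2 := rfl
      rw [e1, e2] at this
      linear_combination this
    · have := s.2.2
      rw [Fin.sum_univ_two]
      simp only [Matrix.cons_val_zero, Matrix.cons_val_succ, Matrix.cons_val_one]
      linear_combination this
    · rintro ⟨w, h⟩
      simp only [Subtype.mk.injEq]
      funext i
      fin_cases i <;> rfl
    · rintro ⟨t, ⟨⟨u, v⟩, h⟩⟩
      rfl
  rw [e, ← Finset.add_sum_erase univ _ (mem_univ (0 : F)), zero_pow (by norm_num), mul_zero,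
    neg_zero, N2_zero]
  congr 1
  have h1 : ∀ t ∈ univ.erase (0 : F), N2 F (-(D * t ^ 3)) = N2 F D := by
    intro t ht
    have ht0 := (mem_erase.1 ht).1
    have : -(D * t ^ 3) = (-t) ^ 3 * D := by ring
    rw [this, N2_scale (neg_ne_zero.2 ht0)]
  rw [sum_congr rfl h1, sum_const, card_erase_of_mem (mem_univ _), card_univ, smul_eq_mul]

theorem roots_eq (h2 : (2 : F) ≠ 0) (h3 : (3 : F) ≠ 0) {D : F} (hD : D ≠ 0) :
    Nat.card {u : F // u ^ 3 = 1} = 1 + Nat.card {y : F // y ^ 2 = -432 * D ^ 2} := by
  have e1 : Nat.card {y : F // y ^ 2 = -432 * D ^ 2} =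
      Nat.card {w : F // w ^ 2 + w + 1 = 0} := by
    have h12 : (12 : F) ≠ 0 := by
      have : (12 : F) = 2 * 2 * 3 := by norm_num
      rw [this]
      exact mul_ne_zero (mul_ne_zero h2 h2) h3
    refine Nat.card_congr
      { toFun := fun y => ⟨(y.1 / (12 * D) - 1) / 2, ?_⟩
        invFun := fun w => ⟨12 * D * (2 * w.1 + 1), ?_⟩
        left_inv := ?_
        right_inv := ?_ }
    · obtain ⟨y, hy⟩ := y
      simp only
      field_simp
      linear_combination hy
    · obtain ⟨w, hw⟩ := w
      simp only
      linear_combination 576 * D ^ 2 * hw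
    · rintro ⟨y, hy⟩
      simp only [Subtype.mk.injEq]
      field_simp
      ring
    · rintro ⟨w, hw⟩
      simp only [Subtype.mk.injEq]
      field_simp
      ring
  rw [e1, Nat.card_eq_fintype_card, Nat.card_eq_fintype_card, Fintype.card_subtype,
    Fintype.card_subtype, add_comm]
  have e2 : (univ.filter fun u : F => u ^ 3 = 1) =
      insert 1 (univ.filter fun w : F => w ^ 2 + w + 1 = 0) := by
    ext u
    simp only [mem_filter, mem_univ, true_and, mem_insert]
    constructor
    · intro h
      have : (u - 1) * (u ^ 2 + u + 1) = 0 := by linear_combination h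
      rcases mul_eq_zero.1 this with h | h
      · exact Or.inl (sub_eq_zero.1 h)
      · exact Or.inr h
    · rintro (rfl | h)
      · ring
      · linear_combination (u - 1) * h
  rw [e2, card_insert_of_notMem]
  simp only [mem_filter, mem_univ, true_and]
  intro h
  apply h3
  linear_combination h

theorem wei_eq (h2 : (2 : F) ≠ 0) (h3 : (3 : F) ≠ 0) {D : F} (hD : D ≠ 0) :
    Nat.card {q : F × F // q.2 ^ 2 = q.1 ^ 3 + -432 * D ^ 2} =
      N2 F D + Nat.card {y : F // y ^ 2 = -432 * D ^ 2} := by
  have h6 : (6 : F) ≠ 0 := by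
    have : (6 : F) = 2 * 3 := by norm_num
    rw [this]
    exact mul_ne_zero h2 h3
  have e1 : Nat.card {q : F × F // q.2 ^ 2 = q.1 ^ 3 + -432 * D ^ 2} =
      Nat.card {q : F × F // q.2 ^ 2 = q.1 ^ 3 + -432 * D ^ 2 ∧ q.1 ≠ 0} +
      Nat.card {q : F × F // q.2 ^ 2 = q.1 ^ 3 + -432 * D ^ 2 ∧ q.1 = 0} := by
    simp only [Nat.card_eq_fintype_card, Fintype.card_subtype]
    rw [← filter_filter, ← filter_filter, add_comm]
    exact (card_filter_add_card_filter_not _).symm
  rw [e1]
  congr 1
  · unfold N2
    have hs : ∀ u v : F, u ^ 3 + v ^ 3 = D → u + v ≠ 0 := by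
      intro u v h h0
      apply hD
      rw [← h]
      have : u = -v := by linear_combination h0
      rw [this]
      ring
    refine Nat.card_congr
      { toFun := fun q => ⟨((36 * D + q.1.2) / (6 * q.1.1), (36 * D - q.1.2) / (6 * q.1.1)), ?_⟩
        invFun := fun w => ⟨(12 * D / (w.1.1 + w.1.2), 36 * D * (w.1.1 - w.1.2) / (w.1.1 + w.1.2)),
          ?_⟩
        left_inv := ?_
        right_inv := ?_ }
    · obtain ⟨⟨x, y⟩, h, hx⟩ := q
      simp only at h hx ⊢
      field_simp
      linear_combination 216 * D * h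
    · obtain ⟨⟨u, v⟩, h⟩ := w
      have huv := hs u v h
      simp only at h ⊢
      refine ⟨?_, ?_⟩
      · have e : (36 * D * (u - v) / (u + v)) ^ 2 - ((12 * D / (u + v)) ^ 3 + -432 * D ^ 2) =
            -432 * D ^ 2 * (4 * (D - (u ^ 3 + v ^ 3))) / (u + v) ^ 3 := by
          field_simp
          ring
        rw [h, sub_self, mul_zero, mul_zero, zero_div] at e
        exact sub_eq_zero.1 e
      · refine div_ne_zero (mul_ne_zero ?_ hD) huv
        have : (12 : F) = 2 * 6 := by norm_num
        rw [this]
        exact mul_ne_zero h2 h6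
    · rintro ⟨⟨x, y⟩, h, hx⟩
      simp only at h hx
      simp only [Subtype.mk.injEq, Prod.mk.injEq]
      have e1 : (36 * D + y) / (6 * x) + (36 * D - y) / (6 * x) = 12 * D / x := by
        field_simp
        ring
      have e2 : (36 * D + y) / (6 * x) - (36 * D - y) / (6 * x) = y / (3 * x) := by
        have : (6 : F) * x = 2 * (3 * x) := by ring
        rw [this]
        field_simp
        ring
      rw [e1, e2]
      have h12 : (12 : F) ≠ 0 := by
        have : (12 : F) = 2 * 6 := by norm_num
        rw [this]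
        exact mul_ne_zero h2 h6
      constructor
      · field_simp
      · field_simp
        ring
    · rintro ⟨⟨u, v⟩, h⟩
      have huv := hs u v h
      simp only at h
      simp only [Subtype.mk.injEq, Prod.mk.injEq]
      have h12 : (12 : F) ≠ 0 := by
        have : (12 : F) = 2 * 6 := by norm_num
        rw [this]
        exact mul_ne_zero h2 h6
      constructor
      · field_simp
        ring
      · field_simp
        ring
  · refine Nat.card_congr
      { toFun := fun q => ⟨q.1.2, ?_⟩
        invFun := fun y => ⟨(0, y.1), ?_⟩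
        left_inv := ?_
        right_inv := ?_ }
    · obtain ⟨⟨x, y⟩, h, hx⟩ := q
      simp only at h hx ⊢
      rw [h, hx]
      ring
    · obtain ⟨y, h⟩ := y
      refine ⟨?_, rfl⟩
      change y ^ 2 = 0 ^ 3 + -432 * D ^ 2
      rw [h]
      ring
    · rintro ⟨⟨x, y⟩, h, hx⟩
      simp only at hx
      subst hx
      rfl
    · rintro ⟨y, h⟩
      rfl

end

end Pool.Agent.W5h35.CU
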